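import Pool.Agent.P.MP_7a8567_an.TA.Rel

/-! From a semi-invariant polynomial to the generating identity. -/

open Polynomial

namespace Ivrii.TA

/-- Two polynomials with nonzero constant terms which agree up to `c * t ^ n` off the origin. -/
lemma ra_cmp {K : Type*} [Field K] [CharZero K] (A B : K[X]) (hA : A.eval 0 ≠ 0)
    (hB : B.eval 0 ≠ 0) (c : K) (n : ℤ) (h : ∀ t : K, t ≠ 0 → A.eval t = c * t ^ n * B.eval t) :
    A = C c * B := by
  have key : ∀ P Q : K[X], (∀ t : K, t ≠ 0 → P.eval t = Q.eval t) → P = Q := by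
    intro P Q hPQ
    apply Polynomial.eq_of_infinite_eval_eq
    refine Set.Infinite.mono (s := ({0}ᶜ : Set K)) (fun t ht => hPQ t ht) ?_
    exact (Set.finite_singleton (0 : K)).infinite_compl
  obtain ⟨m, rfl | rfl⟩ := n.eq_nat_or_neg
  · have e1 : A = C c * X ^ m * B := key _ _ fun t ht => by
      rw [h t ht]
      simp
    rcases Nat.eq_zero_or_pos m with rfl | hm
    · simpa using e1
    · exact absurd (by rw [e1]; simp [hm.ne']) hA
  · have e1 : X ^ m * A = C c * B := key _ _ fun t ht => by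
      have ht' : t ^ m ≠ 0 := pow_ne_zero m ht
      simp only [eval_mul, eval_pow, eval_X, eval_C, h t ht, zpow_neg, zpow_natCast]
      field_simp
    rcases Nat.eq_zero_or_pos m with rfl | hm
    · simpa using e1
    · exfalso
      have e2 := congrArg (eval 0) e1
      simp only [eval_mul, eval_pow, eval_X, eval_C, zero_pow hm.ne', zero_mul] at e2
      have hc : c = 0 := (mul_eq_zero.1 e2.symm).resolve_right hB
      rw [hc, C_0, zero_mul] at e1
      have hA0 : A = 0 := (mul_eq_zero.1 e1).resolve_left (pow_ne_zero m X_ne_zero)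
      exact hA (by rw [hA0, eval_zero])

/-- The two variable polynomial attached to `Pi`, a sign `ε` and exponents `n`. -/
noncomputable def raP {k : Type*} [Field k] (Pi : MvPolynomial (Fin 2) k) (ε : k)
    (n : (Fin 2 →₀ ℕ) → ℕ) : k[X][X] :=
  ∑ s ∈ Pi.support, C (C (Pi.coeff s * ε ^ s 1) * X ^ s 1) * X ^ n s

section

variable {k K : Type*} [Field k] [Field K] [Algebra k K] (Pi : MvPolynomial (Fin 2) k) (ε : k)
  (n : (Fin 2 →₀ ℕ) → ℕ)

lemma ra_eval (x y t : K) : (evT x y (raP Pi ε n)).eval t =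
    ∑ s ∈ Pi.support, algebraMap k K (Pi.coeff s) *
      (algebraMap k K ε * (x - y * t ^ 2)) ^ s 1 * t ^ n s := by
  have hC : ∀ a : k[X], evT x y (C a) = aeval (C x - C y * X ^ 2 : K[X]) a := fun a => by
    simp [evT]
  have hX : evT (k := k) x y X = X := by simp [evT]
  rw [raP, map_sum, eval_finsetSum]
  refine Finset.sum_congr rfl fun s _ => ?_
  rw [map_mul, hC, map_pow, hX]
  simp [mul_pow, mul_assoc]

lemma ra_eval_zero (F : k[X][X]) (x y : K) : (evT x y F).eval 0 = aeval x (F.coeff 0) := by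
  induction F using Polynomial.induction_on' with
  | add p q hp hq => simp [hp, hq]
  | monomial m a =>
    rw [← C_mul_X_pow_eq_monomial]
    rcases Nat.eq_zero_or_pos m with rfl | hm
    · simp only [evT, pow_zero, mul_one, coe_eval₂RingHom, eval₂_C, coeff_C_zero, RingHom.coe_coe]
      induction a using Polynomial.induction_on' with
      | add p q hp hq => simp only [map_add, eval_add, hp, hq]
      | monomial j b => simp [← C_mul_X_pow_eq_monomial]
    · simp [evT, hm.ne', hm.ne, coeff_X_pow]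

lemma ra_coeff_zero : (raP Pi ε n).coeff 0 =
    ∑ s ∈ Pi.support with n s = 0, C (Pi.coeff s * ε ^ s 1) * X ^ s 1 := by
  rw [raP, finsetSum_coeff, Finset.sum_filter]
  refine Finset.sum_congr rfl fun s _ => ?_
  rw [coeff_C_mul, coeff_X_pow]
  by_cases h : n s = 0
  · simp [h]
  · simp [h, Ne.symm h]

lemma ra_ne_zero (hε : ε ≠ 0) (s0 : Fin 2 →₀ ℕ) (h0 : s0 ∈ Pi.support) (hn : n s0 = 0)
    (hu : ∀ s ∈ Pi.support, n s = 0 → s 1 = s0 1 → s = s0) : (raP Pi ε n).coeff 0 ≠ 0 := by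
  intro h
  have h1 := congrArg (fun p => p.coeff (s0 1)) h
  simp only [ra_coeff_zero, finsetSum_coeff, coeff_C_mul, coeff_X_pow, coeff_zero] at h1
  rw [Finset.sum_eq_single s0] at h1
  · simp only [if_true, mul_one] at h1
    exact mul_ne_zero (MvPolynomial.mem_support_iff.1 h0) (pow_ne_zero _ hε) h1
  · intro s hs hne
    rw [Finset.mem_filter] at hs
    rw [if_neg fun h => hne (hu s hs.1 hs.2 h.symm), mul_zero]
  · intro hs
    exact absurd (Finset.mem_filter.2 ⟨h0, hn⟩) hs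

lemma ra_deg (M : ℕ) (hM : ∀ s ∈ Pi.support, 2 * s 1 ≤ M) :
    2 * ((raP Pi ε n).coeff 0).natDegree ≤ M := by
  have : ((raP Pi ε n).coeff 0).natDegree ≤ M / 2 := by
    rw [ra_coeff_zero]
    refine natDegree_sum_le_of_forall_le _ _ fun s hs => ?_
    have := hM s (Finset.mem_filter.1 hs).1
    exact (natDegree_C_mul_X_pow_le _ _).trans (by omega)
  omega

lemma ra_aeval (t u : K) : MvPolynomial.aeval ![t, u] Pi =
    ∑ s ∈ Pi.support, algebraMap k K (Pi.coeff s) * (t ^ s 0 * u ^ s 1) := by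
  rw [MvPolynomial.aeval_def, MvPolynomial.eval₂_eq']
  refine Finset.sum_congr rfl fun s _ => ?_
  simp [Fin.prod_univ_two]

lemma ra_repI (z w : K) (α β : ℕ) (h : ∀ s ∈ Pi.support, α + s 1 ≤ β + s 0) (t : K)
    (ht : t ≠ 0) : t ^ β * MvPolynomial.aeval ![t, z / t - w * t] Pi =
      t ^ α * (evT z w (raP Pi 1 fun s => β + s 0 - (α + s 1))).eval t := by
  rw [ra_eval, ra_aeval, Finset.mul_sum, Finset.mul_sum]
  refine Finset.sum_congr rfl fun s hs => ?_
  obtain ⟨d, hd⟩ := Nat.exists_eq_add_of_le (h s hs)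
  have e0 : β + s 0 - (α + s 1) = d := by omega
  have e1 : z - w * t ^ 2 = t * (z / t - w * t) := by field_simp
  have e2 : t ^ β * t ^ s 0 = t ^ α * t ^ s 1 * t ^ d := by
    rw [← pow_add, ← pow_add, ← pow_add, hd]
  rw [e0, e1, (algebraMap k K).map_one, one_mul, mul_pow]
  linear_combination (algebraMap k K (Pi.coeff s) * (z / t - w * t) ^ s 1) * e2

lemma ra_repJ (z w : K) (m : ℕ) (h : ∀ s ∈ Pi.support, s 0 + s 1 ≤ m) (t : K)
    (ht : t ≠ 0) : MvPolynomial.aeval ![t, z / t - w * t] Pi =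
      t ^ m * (evT w z (raP Pi (-1) fun s => m - (s 0 + s 1))).eval t⁻¹ := by
  rw [ra_eval, ra_aeval, Finset.mul_sum]
  refine Finset.sum_congr rfl fun s hs => ?_
  obtain ⟨d, hd⟩ := Nat.exists_eq_add_of_le (h s hs)
  have e0 : m - (s 0 + s 1) = d := by omega
  have e1 : algebraMap k K (-1) * (w - z * t⁻¹ ^ 2) = t⁻¹ * (z / t - w * t) := by
    rw [map_neg, map_one]
    field_simp
    ring
  have e2 : t ^ s 0 = t ^ m * t⁻¹ ^ s 1 * t⁻¹ ^ d := by
    rw [hd, pow_add, pow_add, inv_pow, inv_pow]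
    field_simp
  rw [e0, e1, mul_pow]
  linear_combination (algebraMap k K (Pi.coeff s) * (z / t - w * t) ^ s 1) * e2

end

theorem relA {k K : Type*} [Field k] [Field K] [Algebra k K] [CharZero k] {z w q : K}
    (hz : Transcendental k z) (hw : Transcendental k w) (hq : q ≠ 0)
    (Pi : MvPolynomial (Fin 2) k)
    (hPi : ∀ (c : k) (j : ℕ), Pi ≠ MvPolynomial.C c * MvPolynomial.X 0 ^ j) (c : K) (e : ℤ)
    (hinv : ∀ t : K, t ≠ 0 → MvPolynomial.aeval ![q / t, z / (q / t) - w * (q / t)] Pi =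
      c * t ^ e * MvPolynomial.aeval ![t, z / t - w * t] Pi) :
    ∃ (M : ℕ) (F G : k[X][X]), 1 ≤ M ∧ F.coeff 0 ≠ 0 ∧ G.coeff 0 ≠ 0 ∧
      2 * (F.coeff 0).natDegree ≤ M ∧ 2 * (G.coeff 0).natDegree ≤ M ∧ Rel F G z w q⁻¹ ∧
      aeval z (F.coeff 0) ^ 2 = q ^ M * aeval w (G.coeff 0) ^ 2 := by
  have : CharZero K := charZero_of_injective_algebraMap (algebraMap k K).injective
  have hne : Pi.support.Nonempty := by
    rw [MvPolynomial.support_nonempty]
    simpa using hPi 0 0
  obtain ⟨s1, hs1, h1⟩ := Finset.exists_max_image Pi.support (fun s => s 0 + s 1) hne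
  obtain ⟨s2, hs2, h2⟩ := Finset.exists_max_image Pi.support
    (fun s => (s 1 : ℤ) - (s 0 : ℤ)) hne
  have h2' : ∀ s ∈ Pi.support, s2 0 + s 1 ≤ s2 1 + s 0 := fun s hs => by
    have := h2 s hs
    omega
  have hext : ∀ s s' : Fin 2 →₀ ℕ, s 0 = s' 0 → s 1 = s' 1 → s = s' := fun s s' a b => by
    ext i
    fin_cases i
    · exact a
    · exact b
  obtain ⟨M, hM⟩ : ∃ M : ℕ, s1 0 + s1 1 + s2 1 = s2 0 + M := by
    have := h1 s2 hs2
    exact ⟨s1 0 + s1 1 + s2 1 - s2 0, by omega⟩
  have hb : ∀ s ∈ Pi.support, 2 * s 1 ≤ M := fun s hs => by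
    have := h1 s hs
    have := h2' s hs
    omega
  set F := raP Pi 1 fun s => s2 1 + s 0 - (s2 0 + s 1) with hF
  set G := raP Pi (-1) fun s => s1 0 + s1 1 - (s 0 + s 1) with hG
  have hF0 : F.coeff 0 ≠ 0 := ra_ne_zero Pi _ _ one_ne_zero s2 hs2 (by omega) fun s hs a b => by
    have := h2' s hs
    exact hext _ _ (by omega) b
  have hG0 : G.coeff 0 ≠ 0 := ra_ne_zero Pi _ _ (neg_ne_zero.2 one_ne_zero) s1 hs1 (by omega)
    fun s hs a b => by
      have := h1 s hs
      exact hext _ _ (by omega) b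
  have hFz : aeval z (F.coeff 0) ≠ 0 := fun h => hF0 (transcendental_iff.1 hz _ h)
  have hGw : aeval w (G.coeff 0) ≠ 0 := fun h => hG0 (transcendental_iff.1 hw _ h)
  have hI := ra_repI Pi z w (s2 0) (s2 1) h2'
  have hJ := ra_repJ Pi z w (s1 0 + s1 1) h1
  rw [← hF] at hI
  rw [← hG] at hJ
  have hI0 := ra_eval_zero F z w
  have hJ0 := ra_eval_zero G w z
  set AI := evT z w F with hAI
  set AJ := evT w z G with hAJ
  set m := s1 0 + s1 1 with hm
  set α := s2 0 with hα
  set β := s2 1 with hβ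
  have c1 : C (q ^ m) * AJ.comp (C q⁻¹ * X) = C c * AI := by
    refine ra_cmp _ _ ?_ (hI0 ▸ hFz) c (e + m + α - β) fun t ht => ?_
    · simp only [eval_mul, eval_C, eval_comp, eval_X, mul_zero]
      exact mul_ne_zero (pow_ne_zero _ hq) (hJ0 ▸ hGw)
    · have a1 := hinv t ht
      have a2 := hI t ht
      rw [hJ (q / t) (div_ne_zero hq ht)] at a1
      have a3 : (q / t)⁻¹ = q⁻¹ * t := by field_simp
      rw [a3, div_pow] at a1
      generalize MvPolynomial.aeval ![t, z / t - w * t] Pi = V at a1 a2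
      simp only [eval_mul, eval_C, eval_comp, eval_X]
      rw [zpow_sub₀ ht, zpow_add₀ ht, zpow_add₀ ht, zpow_natCast, zpow_natCast, zpow_natCast]
      have b1 : t ^ m ≠ 0 := pow_ne_zero _ ht
      have b2 : t ^ β ≠ 0 := pow_ne_zero _ ht
      field_simp
      field_simp at a1
      linear_combination t ^ β * a1 + c * t ^ e * t ^ m * a2
  have c2 : C (q ^ α) * AI.comp (C q * X) = C (c * q ^ β) * AJ := by
    refine ra_cmp _ _ ?_ (hJ0 ▸ hGw) _ (β - α - e - m) fun t ht => ?_
    · simp only [eval_mul, eval_C, eval_comp, eval_X, mul_zero]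
      exact mul_ne_zero (pow_ne_zero _ hq) (hI0 ▸ hFz)
    · have a1 := hinv t⁻¹ (inv_ne_zero ht)
      rw [hJ t⁻¹ (inv_ne_zero ht), inv_inv, div_inv_eq_mul] at a1
      have a2 := hI (q * t) (mul_ne_zero hq ht)
      rw [a1, inv_zpow, inv_pow, mul_pow, mul_pow] at a2
      simp only [eval_mul, eval_C, eval_comp, eval_X]
      rw [zpow_sub₀ ht, zpow_sub₀ ht, zpow_sub₀ ht, zpow_natCast, zpow_natCast, zpow_natCast]
      have b1 : t ^ m ≠ 0 := pow_ne_zero _ ht
      have b2 : t ^ α ≠ 0 := pow_ne_zero _ ht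
      have b3 : t ^ e ≠ 0 := zpow_ne_zero _ ht
      field_simp
      field_simp at a2
      linear_combination -a2
  have d1 := congrArg (eval 0) c1
  have d2 := congrArg (eval 0) c2
  simp only [eval_mul, eval_C, eval_comp, eval_X, mul_zero, hI0, hJ0] at d1 d2
  have hc : c ≠ 0 := by
    rintro rfl
    exact mul_ne_zero (pow_ne_zero _ hq) hGw (by rw [d1, zero_mul])
  refine ⟨M, F, G, ?_, hF0, hG0, ra_deg Pi _ _ M hb, ra_deg Pi _ _ M hb, ?_, ?_⟩
  · by_contra hM0
    have hM1 : M = 0 := by omega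
    have hall : ∀ s ∈ Pi.support, s = s1 := fun s hs => by
      have := h1 s hs
      have := h2' s hs
      have := h2' s1 hs1
      have := hb s hs
      have := hb s1 hs1
      have := hb s2 hs2
      exact hext _ _ (by omega) (by omega)
    have h11 : s1 1 = 0 := by
      have := hb s1 hs1
      omega
    refine hPi (Pi.coeff s1) (s1 0) ?_
    have hs : s1 = Finsupp.single 0 (s1 0) := hext _ _ (by simp) (by simp [h11])
    rw [MvPolynomial.X_pow_eq_monomial, MvPolynomial.C_mul_monomial, mul_one, ← hs]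
    exact MvPolynomial.eq_monomial_of_support_subset_singleton hall
  · unfold Rel
    rw [← hAI, ← hAJ]
    apply mul_left_cancel₀ (C_ne_zero.2 hc)
    have d3 := congrArg (C : K → K[X]) d1
    simp only [map_mul] at d3
    linear_combination (-C (aeval w (G.coeff 0))) * c1 + AJ.comp (C q⁻¹ * X) * d3
  · apply mul_left_cancel₀ (pow_ne_zero α hq)
    have e1 : q ^ α * q ^ M = q ^ m * q ^ β := by rw [← pow_add, ← pow_add, hM]
    linear_combination aeval z (F.coeff 0) * d2 - q ^ β * aeval w (G.coeff 0) * d1 -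
      aeval w (G.coeff 0) ^ 2 * e1

end Ivrii.TA
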