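import Pool.Agent.P.MP_7a8567_an.TA.Rel

/-! Formal properties of the generating identity. -/

open Polynomial

namespace Ivrii.TA

variable {k : Type*} [Field k] {A B : Type*} [CommRing A] [Algebra k A] [CommRing B] [Algebra k B]

lemma rb_evT_C (x y : A) (f : k[X]) : evT x y (C f) = aeval (C x - C y * X ^ 2 : A[X]) f := by
  simp [evT]

lemma rb_evT_X (x y : A) : evT x y (X : k[X][X]) = X := by
  simp [evT]

lemma rb_semi (τ : k →+* k) (σ : A →+* B)
    (hσ : ∀ c : k, σ (algebraMap k A c) = algebraMap k B (τ c)) (x : A) (f : k[X]) :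
    σ (aeval x f) = aeval (σ x) (f.map τ) := by
  induction f using Polynomial.induction_on' with
  | add p q hp hq => simp only [map_add, Polynomial.map_add, hp, hq]
  | monomial n a => simp [aeval_monomial, hσ]

lemma rb_map_evT (τ : k →+* k) (σ : A →+* B)
    (hσ : ∀ c : k, σ (algebraMap k A c) = algebraMap k B (τ c)) (x y : A) (F : k[X][X]) :
    (evT x y F).map σ = evT (σ x) (σ y) (F.map (mapRingHom τ)) := by
  induction F using Polynomial.induction_on' with
  | add p q hp hq => simp only [map_add, Polynomial.map_add, hp, hq]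
  | monomial n a =>
    rw [← C_mul_X_pow_eq_monomial]
    simp only [map_mul, map_pow, rb_evT_C, rb_evT_X, Polynomial.map_mul, Polynomial.map_pow,
      map_X, map_C, coe_mapRingHom]
    congr 1
    have := rb_semi τ (mapRingHom σ) (fun c => by
      simp [Polynomial.algebraMap_apply, hσ]) (C x - C y * X ^ 2 : A[X]) a
    simpa using this

lemma rb_map_rel (τ : k →+* k) (σ : A →+* B)
    (hσ : ∀ c : k, σ (algebraMap k A c) = algebraMap k B (τ c)) (F G : k[X][X]) (z w p : A) :
    (evT z w F * C (aeval w (G.coeff 0))).map σ = evT (σ z) (σ w) (F.map (mapRingHom τ)) *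
        C (aeval (σ w) ((G.map (mapRingHom τ)).coeff 0)) ∧
      (C (aeval z (F.coeff 0)) * (evT w z G).comp (C p * X)).map σ =
        C (aeval (σ z) ((F.map (mapRingHom τ)).coeff 0)) *
          (evT (σ w) (σ z) (G.map (mapRingHom τ))).comp (C (σ p) * X) := by
  constructor
  · rw [Polynomial.map_mul, rb_map_evT τ σ hσ, map_C, rb_semi τ σ hσ, coeff_map, coe_mapRingHom]
  · rw [Polynomial.map_mul, map_comp, rb_map_evT τ σ hσ, map_C, rb_semi τ σ hσ, coeff_map,
      coe_mapRingHom, Polynomial.map_mul, map_C, map_X]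

theorem Rel.mul {F G F' G' : k[X][X]} {z w p : A} (H : Rel F G z w p) (H' : Rel F' G' z w p) :
    Rel (F * F') (G * G') z w p := by
  unfold Rel at H H' ⊢
  simp only [map_mul, mul_coeff_zero, mul_comp]
  linear_combination (evT z w F' * C (aeval w (G'.coeff 0))) * H +
    (C (aeval z (F.coeff 0)) * (evT w z G).comp (C p * X)) * H'

theorem Rel.of_map {F G : k[X][X]} {z w p : A} (φ : A →ₐ[k] B) (hφ : Function.Injective φ)
    (H : Rel F G (φ z) (φ w) (φ p)) : Rel F G z w p := by
  obtain ⟨h1, h2⟩ := rb_map_rel (RingHom.id k) (φ : A →+* B) (fun c => by simp) F G z w p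
  unfold Rel at H ⊢
  apply Polynomial.map_injective (φ : A →+* B) hφ
  rw [h1, h2]
  simpa [mapRingHom_id] using H

/-- Conjugation by a `τ`-semilinear map exchanging `z` and `w`. -/
theorem Rel.conj {F G : k[X][X]} {z w p : A} (τ : k →+* k) (σ : A →+* A)
    (hσ : ∀ c : k, σ (algebraMap k A c) = algebraMap k A (τ c)) (h1 : σ z = w) (h2 : σ w = z)
    (h3 : σ p * p = 1) (H : Rel F G z w p) :
    Rel (G.map (mapRingHom τ)) (F.map (mapRingHom τ)) z w p := by
  obtain ⟨e1, e2⟩ := rb_map_rel τ σ hσ F G z w p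
  unfold Rel at H ⊢
  rw [H, e2, h1, h2] at e1
  have e := congrArg (fun f => f.comp (C p * X)) e1
  simp only [mul_comp, C_comp, comp_assoc, X_comp] at e
  rw [← mul_assoc (C (σ p)), ← map_mul C (σ p), h3, map_one, one_mul, comp_X] at e
  linear_combination e

lemma rb_expand (x y : A) (f : k[X]) : ∃ (u : A) (R : A[X]),
    2 * u = y ^ 2 * aeval x (derivative (derivative f)) ∧
    aeval (C x - C y * X ^ 2 : A[X]) f = C (aeval x f) - C (y * aeval x (derivative f)) * X ^ 2
      + C u * X ^ 4 + R * X ^ 6 := by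
  induction f using Polynomial.induction_on with
  | C a => exact ⟨0, 0, by simp, by simp [Polynomial.algebraMap_apply]⟩
  | add p q hp hq =>
    obtain ⟨u, R, h1, h2⟩ := hp
    obtain ⟨u', R', h1', h2'⟩ := hq
    refine ⟨u + u', R + R', ?_, ?_⟩
    · simp only [map_add]; linear_combination h1 + h1'
    · simp only [map_add, map_mul] at h2 h2' ⊢
      linear_combination h2 + h2'
  | monomial n a ih =>
    obtain ⟨u, R, h1, h2⟩ := ih
    rw [pow_succ X n, ← mul_assoc]
    generalize C a * X ^ n = f at h1 h2 ⊢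
    refine ⟨u * x + y ^ 2 * aeval x (derivative f), R * (C x - C y * X ^ 2) - C u * C y, ?_, ?_⟩
    · simp only [derivative_mul, derivative_X, derivative_add, mul_one, map_add, map_mul, aeval_X]
      linear_combination x * h1
    · simp only [derivative_mul, derivative_X, mul_one, map_add, map_mul, aeval_X, map_pow] at h2 ⊢
      rw [h2]; ring

lemma rb_coeffs (x y : A) (f : k[X]) :
    (aeval (C x - C y * X ^ 2 : A[X]) f).coeff 0 = aeval x f ∧
    (aeval (C x - C y * X ^ 2 : A[X]) f).coeff 1 = 0 ∧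
    (aeval (C x - C y * X ^ 2 : A[X]) f).coeff 2 = -(y * aeval x (derivative f)) ∧
    (aeval (C x - C y * X ^ 2 : A[X]) f).coeff 3 = 0 ∧
    2 * (aeval (C x - C y * X ^ 2 : A[X]) f).coeff 4 =
      y ^ 2 * aeval x (derivative (derivative f)) := by
  obtain ⟨u, R, h1, h2⟩ := rb_expand x y f
  rw [h2, ← h1]
  simp only [coeff_add, coeff_sub, coeff_mul_X_pow', coeff_C]
  simp

lemma rb_tri (x y : A) (F : k[X][X]) :
    (evT x y F).coeff 0 = aeval x (F.coeff 0) ∧ (evT x y F).coeff 2 = (tri F).a2 x y ∧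
      2 * (evT x y F).coeff 4 = (tri F).a4 x y := by
  induction F using Polynomial.induction_on' with
  | add p q hp hq =>
    obtain ⟨h1, h2, h3⟩ := hp
    obtain ⟨h1', h2', h3'⟩ := hq
    simp only [Tri.a2, Tri.a4, tri, map_add, coeff_add, map_mul, map_ofNat] at *
    exact ⟨by linear_combination h1 + h1', by linear_combination h2 + h2',
      by linear_combination h3 + h3'⟩
  | monomial n a =>
    have e : evT x y (monomial n a) = aeval (C x - C y * X ^ 2 : A[X]) a * X ^ n := by
      rw [← C_mul_X_pow_eq_monomial, map_mul, map_pow, rb_evT_C, rb_evT_X]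
    obtain ⟨c0, c1, c2, c3, c4⟩ := rb_coeffs x y a
    rw [e]
    simp only [Tri.a2, Tri.a4, tri, coeff_mul_X_pow', coeff_monomial, map_mul, map_ofNat]
    by_cases hn : n ≤ 4
    · interval_cases n <;> simp [c0, c1, c2, c3, c4] <;> ring
    · rw [if_neg (by omega), if_neg (by omega), if_neg (by omega), if_neg (by omega),
        if_neg (by omega), if_neg (by omega)]
      simp

theorem Rel.hold {F G : k[X][X]} {z w p : A} {m : ℕ} (H : Rel F G z w p)
    (h : aeval z (F.coeff 0) * p ^ m = aeval w (G.coeff 0)) :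
    Hold m (tri F) (tri G) z w 1 p := by
  obtain ⟨-, a2, a4⟩ := rb_tri z w F
  obtain ⟨-, b2, b4⟩ := rb_tri w z G
  have e2 := congrArg (fun f => f.coeff 2) H
  have e4 := congrArg (fun f => f.coeff 4) H
  simp only [coeff_mul_C, coeff_C_mul, comp_C_mul_X_coeff] at e2 e4
  refine ⟨by simpa [tri] using h, ?_, ?_⟩
  · rw [← a2, ← b2]
    simp only [tri]
    linear_combination e2
  · rw [← a4, ← b4]
    simp only [tri]
    linear_combination 2 * e4

end Ivrii.TA
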