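import Pool.Agent.P.MP_7a8567_an.TA.Core
import Pool.Agent.P.MP_7a8567_an.TA.RelA
import Pool.Agent.P.MP_7a8567_an.TA.RelB

/-! Theorem A: a real algebraic curve with a polynomial semi-invariant of the reflection is a
conic or a line. -/

namespace Ivrii.TA

section Red

open Polynomial IntermediateField

variable {k K : Type*} [Field k] [Field K] [Algebra k K]

lemma isIntegral_of_rel {z w : K} (hz : Transcendental k z) {F : MvPolynomial (Fin 2) k}
    (h0 : F ≠ 0) (hF : MvPolynomial.aeval ![z, w] F = 0) : IsIntegral k⟮z⟯ w := by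
  have h1 : IsAlgebraic (Algebra.adjoin k (Set.range ![z])) w := by
    by_contra h
    have h2 := (((algebraicIndependent_iff_transcendental.2 hz).option_iff_transcendental w).2
      h).comp ![some 0, none] (by decide)
    have e : ((fun o : Option (Fin 1) => o.elim w ![z]) ∘ ![some 0, none]) = ![z, w] := by
      ext i
      fin_cases i <;> rfl
    exact h0 (algebraicIndependent_iff.1 (e ▸ h2) F hF)
  have h2 : Algebra.adjoin k (Set.range ![z]) ≤ (k⟮z⟯).toSubalgebra :=
    Algebra.adjoin_le (by simpa using mem_adjoin_simple_self k z)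
  exact (h1.tower_top_of_subalgebra_le h2).isIntegral

lemma der_mem_adjoin (D : Derivation k K K) {S : IntermediateField k K} {s : Set K} (h1 : s ⊆ S)
    (h2 : ∀ x ∈ s, D x ∈ S) {x : K} (hx : x ∈ adjoin k s) : D x ∈ S := by
  have hle : adjoin k s ≤ S := adjoin_le_iff.2 h1
  induction hx using adjoin_induction with
  | mem y hy => exact h2 y hy
  | algebraMap c => simp
  | add x y _ _ a b => exact map_add D x y ▸ add_mem a b
  | inv x hx a =>
    rw [Derivation.leibniz_inv, smul_eq_mul]
    exact mul_mem (neg_mem (pow_mem (inv_mem (hle hx)) 2)) a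
  | mul x y hx hy a b =>
    rw [Derivation.leibniz, smul_eq_mul, smul_eq_mul]
    exact add_mem (mul_mem (hle hx) b) (mul_mem (hle hy) a)

lemma der_mem_of_integral [CharZero k] (D : Derivation k K K) {S : IntermediateField k K}
    {z w : K} (hz : z ∈ S) (hw : w ∈ S) (hD : D z ∈ S) (hi : IsIntegral k⟮z⟯ w) : D w ∈ S := by
  have hle : k⟮z⟯ ≤ S := adjoin_simple_le_iff.2 hz
  have key : ∀ p : (k⟮z⟯)[X], aeval w p ∈ S ∧ aeval w (derivative p) ∈ S ∧
      D (aeval w p) - aeval w (derivative p) * D w ∈ S := by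
    intro p
    induction p using Polynomial.induction_on with
    | C a =>
      simpa using ⟨hle a.2, der_mem_adjoin D (by simpa using hz) (by simpa using hD) a.2⟩
    | add p q hp hq =>
      simp only [map_add]
      refine ⟨add_mem hp.1 hq.1, add_mem hp.2.1 hq.2.1, ?_⟩
      convert add_mem hp.2.2 hq.2.2 using 1
      ring
    | monomial n a ih =>
      rw [pow_succ, ← mul_assoc]
      generalize C a * X ^ n = p at ih
      simp only [map_mul, derivative_mul, derivative_X, aeval_X, mul_one, map_add,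
        Derivation.leibniz, smul_eq_mul]
      refine ⟨mul_mem ih.1 hw, add_mem (mul_mem ih.2.1 hw) ih.1, ?_⟩
      convert mul_mem hw ih.2.2 using 1
      ring
  have : CharZero k⟮z⟯ := charZero_of_injective_algebraMap (algebraMap k _).injective
  have h2 := (minpoly.irreducible hi).separable.aeval_derivative_ne_zero (minpoly.aeval _ w)
  obtain ⟨-, h3, h4⟩ := key (minpoly k⟮z⟯ w)
  rw [minpoly.aeval, map_zero, zero_sub] at h4
  simpa [h2] using mul_mem (inv_mem h3) (neg_mem h4)

/-- Restriction of a derivation to a stable subfield. -/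
def resDer (D : Derivation k K K) (S : IntermediateField k K) (h : ∀ x ∈ S, D x ∈ S) :
    Derivation k S S :=
  Derivation.mk'
    { toFun := fun x => ⟨D x, h x x.2⟩
      map_add' := fun x y => Subtype.ext (map_add D _ _)
      map_smul' := fun c x => Subtype.ext (D.map_smul c _) }
    fun x y => Subtype.ext (D.leibniz _ _)

/-- Theorem A for the function field of the curve. -/
theorem thmA_gen [IsAlgClosed k] [CharZero k] (τ : k →+* k) (hτ : ∀ a, τ (τ a) = a) {z w : K}
    {D : Derivation k K K} (hD : D z = 1) (hw : D w ≠ 0) (hi : IsIntegral k⟮z⟯ w)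
    (hgen : ∀ x : K, ∃ r s : MvPolynomial (Fin 2) k,
      x = MvPolynomial.aeval ![z, w] r / MvPolynomial.aeval ![z, w] s)
    (hreal : ∀ F : MvPolynomial (Fin 2) k, MvPolynomial.aeval ![z, w] F = 0 →
      MvPolynomial.aeval ![w, z] (MvPolynomial.map τ F) = 0)
    {M : ℕ} {F G : k[X][X]} (hM : 1 ≤ M) (hF : F.coeff 0 ≠ 0) (hG : G.coeff 0 ≠ 0)
    (dF : 2 * (F.coeff 0).natDegree ≤ M) (dG : 2 * (G.coeff 0).natDegree ≤ M)
    (H : Rel F G z w (D w)) (e : aeval z (F.coeff 0) ^ 2 * D w ^ M = aeval w (G.coeff 0) ^ 2) :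
    Conic k z w := by
  have htop : (k⟮z⟯)⟮w⟯ = ⊤ := by
    refine eq_top_iff.2 fun x _ => ?_
    have : x ∈ adjoin k (Set.range ![z, w]) := (mem_adjoin_range_iff _ _ _).2 (hgen x)
    rw [← mem_restrictScalars k, adjoin_simple_adjoin_simple]
    simpa [Set.pair_comm] using this
  have : FiniteDimensional k⟮z⟯ K := by
    have h1 := adjoin.finiteDimensional hi
    rw [htop] at h1
    exact topEquiv.toLinearEquiv.finiteDimensional
  obtain ⟨σ, hσ⟩ := exists_lift (MvPolynomial.aeval (R := k) ![z, w]).toRingHom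
    ((MvPolynomial.aeval (R := k) ![w, z]).toRingHom.comp (MvPolynomial.map τ))
    (fun a => ⟨hreal a, fun h => by
      have sw : ∀ (x y : K) (b : MvPolynomial (Fin 2) k), MvPolynomial.aeval ![x, y]
          (MvPolynomial.rename (Equiv.swap 0 1) b) = MvPolynomial.aeval ![y, x] b := fun x y b => by
        rw [MvPolynomial.aeval_rename]
        congr 2
        ext i
        fin_cases i <;> rfl
      have h1 := hreal (MvPolynomial.rename (Equiv.swap 0 1) (MvPolynomial.map τ a))
        ((sw _ _ _).trans h)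
      rwa [MvPolynomial.map_rename, sw, MvPolynomial.map_map,
        show τ.comp τ = RingHom.id k from RingHom.ext hτ, MvPolynomial.map_id] at h1⟩) hgen
  have s0 : ∀ c : k, σ (algebraMap k K c) = algebraMap k K (τ c) := fun c => by
    simpa using hσ (MvPolynomial.C c)
  have s1 : σ z = w := by simpa using hσ (MvPolynomial.X 0)
  have s2 : σ w = z := by simpa using hσ (MvPolynomial.X 1)
  have s3 : σ (D w) * D w = 1 := by
    have := intertwine z σ D D (fun c => by simp [s0]) w
    rw [s1, s2, hD, map_one, mul_one] at this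
    exact this.symm
  have s4 : ∀ (x : K) (p : k[X]), σ (aeval x p) = aeval (σ x) (p.map τ) := fun x p => by
    induction p using Polynomial.induction_on' with
    | add p q hp hq => simp [hp, hq]
    | monomial n a => simp [aeval_monomial, s0]
  have H' := H.conj τ σ s0 s1 s2 s3
  have e' := congrArg σ e
  rw [map_mul, map_pow, map_pow, map_pow, s4, s4, s1, s2] at e'
  have ττ : ∀ p : k[X], (p.map τ).map τ = p := fun p => by
    rw [Polynomial.map_map, show τ.comp τ = RingHom.id k from RingHom.ext hτ, Polynomial.map_id]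
  refine core τ hτ hD hw (m := M + M) (by omega) ?_ ?_ ?_ (((H.mul H).mul (H'.mul H')).hold ?_)
  · simp only [tri, mul_coeff_zero, coeff_map, coe_mapRingHom]
    exact mul_ne_zero (mul_ne_zero hF hF)
      (mul_ne_zero (Polynomial.map_ne_zero hG) (Polynomial.map_ne_zero hG))
  · simp only [tri, mul_coeff_zero, coeff_map, coe_mapRingHom, Polynomial.map_mul, ττ]
    ring
  · simp only [tri, mul_coeff_zero, coeff_map, coe_mapRingHom]
    refine natDegree_mul_le.trans ((add_le_add natDegree_mul_le natDegree_mul_le).trans ?_)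
    rw [natDegree_map]
    omega
  · simp only [mul_coeff_zero, coeff_map, coe_mapRingHom, map_mul]
    have h1 : σ (D w) ^ M * D w ^ M = 1 := by rw [← mul_pow, s3, one_pow]
    rw [pow_add]
    linear_combination (aeval z ((G.coeff 0).map τ) ^ 2 * D w ^ M) * e -
      (aeval w (G.coeff 0) ^ 2 * D w ^ M) * e' +
      (aeval w (G.coeff 0) ^ 2 * aeval w ((F.coeff 0).map τ) ^ 2) * h1

end Red

open MvPolynomial

theorem thmA {k K : Type*} [Field k] [Field K] [Algebra k K] [IsAlgClosed k] [CharZero k]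
    (τ : k →+* k) (hτ : ∀ a, τ (τ a) = a) (z w q : K) (D : Derivation k K K) (hw : D w ≠ 0)
    (hz : D z = q * D w) (hq : q ≠ 0)
    (halg : ∃ F : MvPolynomial (Fin 2) k, F ≠ 0 ∧ aeval ![z, w] F = 0)
    (hreal : ∀ F : MvPolynomial (Fin 2) k, aeval ![z, w] F = 0 →
      aeval ![w, z] (MvPolynomial.map τ F) = 0)
    (Pi : MvPolynomial (Fin 2) k) (hPi : ∀ (c : k) (j : ℕ), Pi ≠ C c * X 0 ^ j) (c : K) (e : ℤ)
    (hinv : ∀ t : K, t ≠ 0 → aeval ![q / t, z / (q / t) - w * (q / t)] Pi =
      c * t ^ e * aeval ![t, z / t - w * t] Pi) :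
    ∃ F : MvPolynomial (Fin 2) k, F ≠ 0 ∧ F.totalDegree ≤ 2 ∧ aeval ![z, w] F = 0 := by
  have hz0 : D z ≠ 0 := hz ▸ mul_ne_zero hq hw
  obtain ⟨M, F, G, hM, hF, hG, dF, dG, H, e1⟩ :=
    relA (transc_of_der hz0) (transc_of_der hw) hq Pi hPi c e hinv
  obtain ⟨F0, hF0, hF1⟩ := halg
  set S := IntermediateField.adjoin k (Set.range ![z, w]) with hS
  have mz : z ∈ S := IntermediateField.subset_adjoin _ _ ⟨0, rfl⟩
  have mw : w ∈ S := IntermediateField.subset_adjoin _ _ ⟨1, rfl⟩
  set D1 : Derivation k K K := (D z)⁻¹ • D with hD1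
  have d1 : D1 z = 1 := by rw [hD1, Derivation.smul_apply, smul_eq_mul, inv_mul_cancel₀ hz0]
  have d2 : D1 w = q⁻¹ := by
    rw [hD1, Derivation.smul_apply, smul_eq_mul, hz]
    field_simp
  have d3 : D1 w ∈ S := der_mem_of_integral D1 mz mw (d1 ▸ one_mem S)
    (isIntegral_of_rel (transc_of_der hz0) hF0 hF1)
  have st : ∀ x ∈ S, D1 x ∈ S := fun x hx => der_mem_adjoin D1
    (IntermediateField.subset_adjoin _ _) (by
      rintro _ ⟨i, rfl⟩
      fin_cases i
      · exact d1 ▸ one_mem S
      · exact d3) hx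
  have ev : ∀ (x y : S) (a : MvPolynomial (Fin 2) k),
      S.val (aeval ![x, y] a) = aeval ![(x : K), (y : K)] a := fun x y a => by
    rw [← AlgHom.comp_apply, comp_aeval]
    congr 2
    ext i
    fin_cases i <;> rfl
  have r1 : resDer D1 S st ⟨z, mz⟩ = 1 := Subtype.ext d1
  have r2 : S.val (resDer D1 S st ⟨w, mw⟩) = q⁻¹ := d2
  have inj : Function.Injective S.val := S.val.injective
  have H1 : Rel F G (⟨z, mz⟩ : S) ⟨w, mw⟩ (resDer D1 S st ⟨w, mw⟩) :=
    Rel.of_map S.val inj (by rw [r2]; exact H)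
  have H2 : Conic k (⟨z, mz⟩ : S) ⟨w, mw⟩ → Conic k z w := fun h => h.map S.val
  refine (H2 (thmA_gen τ hτ r1 (fun h => inv_ne_zero hq (by rw [← r2, h, map_zero]))
    (isIntegral_of_rel (transc_of_der (D := resDer D1 S st) (by simp [r1])) hF0
      (inj (by rw [ev, map_zero]; exact hF1)))
    (fun x => ?_) (fun a ha => inj ?_) hM hF hG dF dG H1 (inj ?_))).exists_mv
  · obtain ⟨r, s, h⟩ := (IntermediateField.mem_adjoin_range_iff _ _ _).1 x.2
    exact ⟨r, s, inj (by rw [map_div₀, ev, ev]; exact h)⟩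
  · rw [ev, map_zero]
    exact hreal a (by rw [← map_zero S.val, ← ha, ev])
  · rw [map_mul, map_pow, map_pow, map_pow, r2, ← Polynomial.aeval_algHom_apply,
      ← Polynomial.aeval_algHom_apply]
    change Polynomial.aeval z _ ^ 2 * _ = Polynomial.aeval w _ ^ 2
    rw [e1, inv_pow]
    field_simp

end Ivrii.TA
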