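import Pool.Agent.P.MP_7a8567_an.TA.Place

/-! The degenerate case of Theorem A: the leading polynomial is a power of a quadratic one. -/

open Polynomial Ivrii.PX IntermediateField

noncomputable section

namespace Ivrii.TA

variable {k K : Type*} [Field k] [Field K] [Algebra k K] [IsAlgClosed k] [CharZero k]

omit [IsAlgClosed k] in
lemma sq_of_lead {W b : LaurentSeries k} {B β : k} (hb : Lead 0 β b) (hβ : β ≠ 0)
    (hW : euler k k W ≠ 0) (e : b * (W ^ 2 - algebraMap k _ B) = euler k k W ^ 2) :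
    ∃ j : ℤ, β = j ^ 2 := by
  obtain ⟨j, γ, hγ, lW⟩ := exists_lead (f := W) (fun h => hW (by rw [h, map_zero]))
  refine ⟨j, ?_⟩
  have e1 := congrArg (euler k k) e
  simp only [Derivation.leibniz, map_sub, Derivation.leibniz_pow, Derivation.map_algebraMap,
    smul_eq_mul, nsmul_eq_mul, Nat.add_one_sub_one, pow_one, Nat.cast_ofNat, sub_zero] at e1
  have e2 : euler k k b * euler k k W + (b * b * W + b * b * W) =
      b * euler k k (euler k k W) + b * euler k k (euler k k W) :=
    mul_left_cancel₀ hW (by linear_combination b * e1 - euler k k b * e)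
  have l1 := ((hb.mul hb).mul lW).cast (n' := j) (by ring) rfl
  have l2 := ((hb.euler.mul lW.euler).cast (zero_add j) rfl).add (l1.add l1)
  have l3 := (hb.mul lW.euler.euler).cast (zero_add j) rfl
  rw [e2] at l2
  have h := l2.eq (l3.add l3)
  refine mul_left_cancel₀ (mul_ne_zero (mul_ne_zero two_ne_zero hβ) hγ) ?_
  push_cast at h
  linear_combination h

variable {z w : K} [FiniteDimensional k⟮z⟯ K] {D : Derivation k K K}

lemma rat_of_quad (hD : D z = 1) (hw : D w ≠ 0) {c d A B ρ : k} (hρ : ρ ≠ 0)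
    (h : ((z - algebraMap k K c) ^ 2 - algebraMap k K A) * D w ^ 2 =
      algebraMap k K ρ * ((w - algebraMap k K d) ^ 2 - algebraMap k K B)) :
    ∃ r : ℚ, 0 ≤ r ∧ ρ = r := by
  obtain ⟨n, ⟨ψ, hψ⟩, -⟩ := places (transc_of_der (D := D) (z := z) (by simp [hD]))
    (transc_inf (k := k))
  have hn : (0 : ℤ) < (n : ℕ) := by exact_mod_cast n.pos
  have hn' : (((n : ℕ) : ℤ) : k) ≠ 0 := Int.cast_ne_zero.2 hn.ne'
  have l0 : Lead (-(n : ℕ)) 1 (ψ z) := by
    rw [hψ, ram_single, mul_neg_one]
    exact Lead.single _ _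
  have lz : Lead (-(n : ℕ)) 1 (ψ z - algebraMap k _ c) :=
    (l0.sub ((Lead.const c).1.mono (by omega)).lead0).cast rfl (sub_zero _)
  have lP := ((lz.pow 2).sub ((Lead.const A).1.mono (by push_cast; omega)).lead0).cast rfl
    (show _ = (1 : k) by simp)
  have hθ := l0.euler.ne_zero (by simp)
  have lb := ((Lead.const ρ).mul ((l0.euler.pow 2).div lP one_ne_zero)).cast (n' := 0) (by simp)
    (c' := ρ * ((n : ℕ) : ℤ) ^ 2) (by simp)
  have e1 : euler k k (ψ w - algebraMap k _ d) = euler k k (ψ z) * ψ (D w) := by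
    rw [← euler_place hD]
    simp
  obtain ⟨j, hj⟩ := sq_of_lead (W := ψ w - algebraMap k _ d) (B := B) lb
    (mul_ne_zero hρ (pow_ne_zero _ hn'))
    (e1 ▸ mul_ne_zero hθ ((_root_.map_ne_zero ψ).2 hw)) (by
      have h1 := congrArg ψ h
      simp only [map_mul, map_sub, map_pow, AlgHom.commutes] at h1
      have h2 := lP.ne_zero one_ne_zero
      rw [e1]
      field_simp
      linear_combination -h1)
  refine ⟨(j / ((n : ℕ) : ℤ)) ^ 2, sq_nonneg _, ?_⟩
  push_cast at hj hn' ⊢
  rw [div_pow, eq_div_iff (pow_ne_zero _ hn'), hj]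

lemma conic_of_one (hD : D z = 1) (hw : D w ≠ 0) {c d A B : k}
    (h : ((z - algebraMap k K c) ^ 2 - algebraMap k K A) * D w ^ 2 =
      (w - algebraMap k K d) ^ 2 - algebraMap k K B) : Conic k z w := by
  have : CharZero K := charZero_of_injective_algebraMap (algebraMap k K).injective
  refine Conic.of_shift c d ?_
  have hZ : D (z - algebraMap k K c) = 1 := by simp [hD]
  have hW : D (w - algebraMap k K d) = D w := by simp
  generalize z - algebraMap k K c = Z at h hZ
  generalize w - algebraMap k K d = W at h hW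
  rw [← hW] at h hw
  have h1 := congrArg D h
  simp only [Derivation.leibniz, map_sub, Derivation.leibniz_pow, Derivation.map_algebraMap,
    smul_eq_mul, nsmul_eq_mul, Nat.add_one_sub_one, pow_one, Nat.cast_ofNat, sub_zero, hZ] at h1
  have h2 : Z * D W + (Z ^ 2 - algebraMap k K A) * D (D W) = W :=
    mul_left_cancel₀ (mul_ne_zero two_ne_zero hw) (by linear_combination h1)
  obtain ⟨e, he⟩ := const_of_der hD (f := Z * W - D W * (Z ^ 2 - algebraMap k K A)) (by
    simp only [Derivation.leibniz, map_sub, Derivation.leibniz_pow, Derivation.map_algebraMap,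
      smul_eq_mul, nsmul_eq_mul, Nat.add_one_sub_one, pow_one, Nat.cast_ofNat, sub_zero, hZ]
    linear_combination -h2)
  by_cases h0 : B = 0 ∧ e = 0 ∧ A = 0
  · obtain ⟨rfl, rfl, rfl⟩ := h0
    have hZ0 : Z ≠ 0 := by
      rintro rfl
      simp at hZ
    simp only [map_zero, sub_zero] at he
    obtain ⟨l, hl⟩ := const_of_der hD (f := W / Z) (by
      rw [Derivation.leibniz_div, hZ]
      simp only [smul_eq_mul]
      refine mul_eq_zero_of_right _ (mul_left_cancel₀ hZ0 ?_)
      linear_combination -he)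
    refine ⟨0, 0, 0, l, -1, 0, by simp, ?_⟩
    simp only [Algebra.smul_def, map_zero, map_neg, map_one, ← hl]
    field_simp
    ring
  · refine ⟨B, -2 * e, A, 0, 0, e ^ 2 - A * B, fun h3 => h0 ⟨h3.1, by simpa using h3.2.1,
      h3.2.2.1⟩, ?_⟩
    simp only [Algebra.smul_def, map_zero, map_neg, map_mul, map_sub, map_pow, map_ofNat]
    linear_combination (Z ^ 2 - algebraMap k K A) * h +
      (Z * W + D W * (Z ^ 2 - algebraMap k K A) - algebraMap k K e) * he

theorem conic_of_quad (τ : k →+* k) (hτ : ∀ a, τ (τ a) = a) (hD : D z = 1) (hw : D w ≠ 0)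
    {m : ℕ} (hm : 0 < m) {f : k[X]} {c a b : k} (hc : c ≠ 0)
    (hf : f ^ 2 = C c * ((X - C a) * (X - C b)) ^ m)
    (e1 : aeval z f * D w ^ m = aeval w (f.map τ) * 1 ^ m) : Conic k z w := by
  have : CharZero K := charZero_of_injective_algebraMap (algebraMap k K).injective
  have sq : ∀ (x : K) (a b : k), (x - algebraMap k K a) * (x - algebraMap k K b) =
      (x - algebraMap k K ((a + b) / 2)) ^ 2 - algebraMap k K (((a - b) / 2) ^ 2) := fun x a b => by
    simp only [map_div₀, map_add, map_sub, map_pow, map_ofNat]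
    ring
  have h1 := congrArg (aeval z) hf
  have h2 := congrArg (fun p => aeval w (p.map τ)) hf
  simp only [Polynomial.map_mul, Polynomial.map_pow, Polynomial.map_sub, map_C, map_X, map_mul,
    map_pow, map_sub, aeval_C, aeval_X, sq] at h1 h2
  have hP : (z - algebraMap k K ((a + b) / 2)) ^ 2 - algebraMap k K (((a - b) / 2) ^ 2) ≠ 0 := by
    rw [← sq]
    have : ∀ a : k, z - algebraMap k K a ≠ 0 := fun a h => by
      have := congrArg D h
      simp [hD] at this
    exact mul_ne_zero (this a) (this b)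
  simp only [← map_pow] at h1 h2
  set P := (z - algebraMap k K ((a + b) / 2)) ^ 2 - algebraMap k K (((a - b) / 2) ^ 2) with hP'
  set Q := (w - algebraMap k K ((τ a + τ b) / 2)) ^ 2 - algebraMap k K (((τ a - τ b) / 2) ^ 2)
    with hQ'
  simp only [map_pow] at h1 h2
  have hc' : algebraMap k K c ≠ 0 := (_root_.map_ne_zero _).2 hc
  have h3 : algebraMap k K c * (P * D w ^ 2) ^ m = algebraMap k K (τ c) * Q ^ m := by
    rw [mul_pow, ← mul_assoc, ← h1, ← h2, ← pow_mul, mul_comm 2, pow_mul, ← mul_pow, e1]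
    simp
  have h4 := mul_ne_zero hP (pow_ne_zero 2 hw)
  have hQ : Q ≠ 0 := fun h => by
    rw [h, zero_pow hm.ne', mul_zero] at h3
    exact mul_ne_zero hc' (pow_ne_zero _ h4) h3
  have h5 : (P * D w ^ 2 / Q) ^ m = algebraMap k K (τ c / c) := by
    rw [div_pow, map_div₀, div_eq_div_iff (pow_ne_zero _ hQ) hc']
    linear_combination h3
  obtain ⟨ρ, hρ⟩ := const_of_der hD (f := P * D w ^ 2 / Q) (by
    have := congrArg D h5
    rw [Derivation.leibniz_pow, Derivation.map_algebraMap, smul_eq_mul, nsmul_eq_mul] at this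
    exact (mul_eq_zero.1 ((mul_eq_zero.1 this).resolve_left (Nat.cast_ne_zero.2 hm.ne'))).resolve_left
      (pow_ne_zero _ (div_ne_zero h4 hQ)))
  rw [hρ, ← map_pow] at h5
  replace h5 := (algebraMap k K).injective h5
  have hρ0 : ρ ≠ 0 := by
    rintro rfl
    exact div_ne_zero h4 hQ (by simpa using hρ)
  rw [div_eq_iff hQ] at hρ
  obtain ⟨r, hr, rfl⟩ := rat_of_quad hD hw hρ0 hρ
  have h6 := congrArg τ h5
  rw [map_pow, map_ratCast, map_div₀, hτ] at h6
  have h7 : ((r ^ (m + m) : ℚ) : k) = (1 : ℚ) := by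
    have := (_root_.map_ne_zero τ).2 hc
    push_cast
    rw [pow_add]
    nth_rewrite 1 [h5]
    rw [h6]
    field_simp
  obtain rfl : r = 1 := (pow_eq_one_iff_of_nonneg hr (by omega)).1 (Rat.cast_injective h7)
  exact conic_of_one hD hw (by simpa using hρ)

end Ivrii.TA
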