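import Pool.Agent.P.MP_7a8567_an.TA.Global
import Pool.Agent.P.MP_7a8567_an.TA.Quad

/-! Theorem A for a function field with the three identities. -/

open Polynomial IntermediateField

noncomputable section

namespace Ivrii.TA

variable {k K : Type*} [Field k] [Field K] [Algebra k K]

lemma rootMultiplicity_taylor' (a c : k) (f : k[X]) :
    (taylor c f).rootMultiplicity a = f.rootMultiplicity (a + c) := by
  rw [← rootMultiplicity_taylor a, taylor_taylor, rootMultiplicity_taylor]

lemma big_cases {f : k[X]} {m : ℕ} :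
    (∃ a b : k, ((X - C a) * (X - C b)) ^ m ∣ f ^ 2) ∨
      ∃ c : k, f.rootMultiplicity c < m ∧ ∀ a, a ≠ c → 2 * f.rootMultiplicity a < m := by
  have key : ∀ (a : k) (n : ℕ), n ≤ 2 * f.rootMultiplicity a → (X - C a) ^ n ∣ f ^ 2 :=
    fun a n h => (pow_dvd_pow _ h).trans (by
      rw [mul_comm, pow_mul]
      exact pow_dvd_pow_of_dvd (pow_rootMultiplicity_dvd f a) 2)
  by_cases h1 : ∃ a, m ≤ f.rootMultiplicity a
  · obtain ⟨a, ha⟩ := h1
    refine Or.inl ⟨a, a, ?_⟩
    rw [← sq, ← pow_mul]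
    exact key a _ (by omega)
  push Not at h1
  by_cases h2 : ∃ a, m ≤ 2 * f.rootMultiplicity a
  · obtain ⟨a, ha⟩ := h2
    by_cases h3 : ∃ b, b ≠ a ∧ m ≤ 2 * f.rootMultiplicity b
    · obtain ⟨b, hb, h⟩ := h3
      refine Or.inl ⟨b, a, ?_⟩
      rw [mul_pow]
      exact (isCoprime_X_sub_C_of_isUnit_sub (sub_ne_zero.2 hb).isUnit).pow.mul_dvd
        (key b m h) (key a m ha)
    · push Not at h3
      exact Or.inr ⟨a, h1 a, h3⟩
  · push Not at h2
    exact Or.inr ⟨0, h1 0, fun a _ => h2 a⟩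

lemma adjoin_sub (z : K) (c : k) : k⟮z - algebraMap k K c⟯ = k⟮z⟯ := by
  refine le_antisymm (adjoin_simple_le_iff.2 (sub_mem (mem_adjoin_simple_self k z)
    (IntermediateField.algebraMap_mem _ c))) (adjoin_simple_le_iff.2 ?_)
  simpa using add_mem (mem_adjoin_simple_self k (z - algebraMap k K c))
    (IntermediateField.algebraMap_mem _ c)

theorem core [IsAlgClosed k] [CharZero k] (τ : k →+* k) (hτ : ∀ a, τ (τ a) = a) {z w : K}
    [hfin : FiniteDimensional k⟮z⟯ K] {D : Derivation k K K} (hD : D z = 1) (hw : D w ≠ 0)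
    {m : ℕ} (hm : 0 < m) {I J : Tri k} (h0 : I.g ≠ 0) (hJ : J.g = I.g.map τ)
    (hd : I.g.natDegree ≤ m) (H : Hold m I J z w 1 (D w)) : Conic k z w := by
  rcases big_cases (f := I.g) (m := m) with ⟨a, b, h⟩ | ⟨c, h1, h2⟩
  · have hmon : (((X - C a) * (X - C b)) ^ m : k[X]).Monic :=
      ((monic_X_sub_C a).mul (monic_X_sub_C b)).pow m
    refine conic_of_quad τ hτ hD hw hm (leadingCoeff_ne_zero.2 (pow_ne_zero 2 h0))
      (eq_leadingCoeff_mul_of_monic_of_dvd_of_natDegree_le hmon h ?_) (hJ ▸ H.e1)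
    rw [natDegree_pow, natDegree_pow, (monic_X_sub_C a).natDegree_mul (monic_X_sub_C b),
      natDegree_X_sub_C, natDegree_X_sub_C]
    omega
  · have : FiniteDimensional k⟮z - algebraMap k K c⟯ K := (adjoin_sub z c).symm ▸ hfin
    have hg : ∀ a, (taylor (τ c) J.g).rootMultiplicity a = I.g.rootMultiplicity (τ a + c) :=
      fun a => by
        rw [rootMultiplicity_taylor', hJ, eq_rootMultiplicity_map τ.injective (τ a + c), map_add,
          hτ]
    have hW : D (w - algebraMap k K (τ c)) = D w := by simp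
    refine Conic.of_shift c (τ c) (conic_of_small (D := D) (m := m) (I := I.shift c (τ c))
      (J := J.shift (τ c) c) (by simp [hD]) (hW ▸ hw) ⟨?_, ?_, ?_, ?_, ?_, ?_, ?_⟩
      (hW.symm ▸ H.shift c (τ c)))
    · exact fun h => h0 ((taylor_eq_zero _ _).1 h)
    · exact fun h => h0 ((Polynomial.map_eq_zero τ).1 (hJ ▸ (taylor_eq_zero _ _).1 h))
    · rw [Tri.shift, natDegree_taylor, hJ, natDegree_map]
      exact hd
    · exact (rootMultiplicity_taylor c _).trans (by rw [Tri.shift, hg, map_zero, zero_add])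
    · exact (rootMultiplicity_taylor c _).trans_lt h1
    · intro a ha
      rw [Tri.shift, rootMultiplicity_taylor']
      exact h2 _ (by simpa using ha)
    · intro a ha
      rw [Tri.shift, hg]
      exact h2 _ (by simpa using ha)

end Ivrii.TA
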