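import Mathlib

/-! The three identities of Theorem A and their formal properties. -/

open Polynomial

noncomputable section

namespace Ivrii.TA

/-- Three polynomials: the coefficients of `t ^ 0`, `t ^ 2` and twice that of `t ^ 4`. -/
structure Tri (k : Type*) [Field k] where
  g : k[X]
  h : k[X]
  l : k[X]

variable {k : Type*} [Field k] {A B : Type*} [CommRing A] [Algebra k A] [CommRing B] [Algebra k B]

namespace Tri

def a2 (T : Tri k) (x y : A) : A := aeval x T.h - y * aeval x (derivative T.g)

def a4 (T : Tri k) (x y : A) : A :=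
  aeval x T.l - 2 * y * aeval x (derivative T.h) + y ^ 2 * aeval x (derivative (derivative T.g))

/-- The triple after the translation `x ↦ x - a`, `y ↦ y - b`. -/
def shift (T : Tri k) (a b : k) : Tri k where
  g := taylor a T.g
  h := taylor a (T.h - C b * derivative T.g)
  l := taylor a (T.l - 2 * C b * derivative T.h + C b ^ 2 * derivative (derivative T.g))

lemma aeval_taylor (x : A) (a : k) (f : k[X]) :
    aeval (x - algebraMap k A a) (taylor a f) = aeval x f := by
  rw [taylor_apply, aeval_comp]
  simp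

lemma derivative_taylor (a : k) (f : k[X]) : derivative (taylor a f) = taylor a (derivative f) := by
  simp [taylor_apply, derivative_comp]

lemma shift_a2 (T : Tri k) (a b : k) (x y : A) :
    (T.shift a b).a2 (x - algebraMap k A a) (y - algebraMap k A b) = T.a2 x y := by
  simp only [a2, shift, derivative_taylor, aeval_taylor, map_sub, map_mul, aeval_C]
  ring

lemma shift_a4 (T : Tri k) (a b : k) (x y : A) :
    (T.shift a b).a4 (x - algebraMap k A a) (y - algebraMap k A b) = T.a4 x y := by
  simp only [a4, shift, derivative_taylor, aeval_taylor, map_sub, map_mul, map_add, aeval_C,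
    map_pow, map_ofNat, derivative_mul, derivative_C, zero_mul, zero_add]
  ring

lemma map_a2 (T : Tri k) (φ : A →ₐ[k] B) (x y : A) : φ (T.a2 x y) = T.a2 (φ x) (φ y) := by
  simp only [a2, map_sub, map_mul, aeval_algHom_apply]

lemma map_a4 (T : Tri k) (φ : A →ₐ[k] B) (x y : A) : φ (T.a4 x y) = T.a4 (φ x) (φ y) := by
  simp only [a4, map_sub, map_mul, map_add, map_pow, map_ofNat, aeval_algHom_apply]

end Tri

/-- The identities (1), (2), (3) at the point `(z, w)` with tangent vector `(a, b)`. -/
structure Hold (m : ℕ) (I J : Tri k) (z w a b : A) : Prop where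
  e1 : aeval z I.g * b ^ m = aeval w J.g * a ^ m
  e2 : a ^ 2 * I.a2 z w * aeval w J.g = b ^ 2 * J.a2 w z * aeval z I.g
  e3 : a ^ 4 * I.a4 z w * aeval w J.g = b ^ 4 * J.a4 w z * aeval z I.g

namespace Hold

variable {m : ℕ} {I J : Tri k} {z w a b : A}

lemma swap (H : Hold m I J z w a b) : Hold m J I w z b a := ⟨H.e1.symm, H.e2.symm, H.e3.symm⟩

lemma scale (H : Hold m I J z w a b) (c : A) : Hold m I J z w (c * a) (c * b) :=
  ⟨by rw [mul_pow, mul_pow]; linear_combination c ^ m * H.e1,
    by linear_combination c ^ 2 * H.e2, by linear_combination c ^ 4 * H.e3⟩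

lemma unscale [IsDomain A] {c : A} (hc : c ≠ 0) (H : Hold m I J z w (c * a) (c * b)) :
    Hold m I J z w a b :=
  ⟨mul_left_cancel₀ (pow_ne_zero m hc) (by
      have := H.e1
      rw [mul_pow, mul_pow] at this
      linear_combination this),
    mul_left_cancel₀ (pow_ne_zero 2 hc) (by linear_combination H.e2),
    mul_left_cancel₀ (pow_ne_zero 4 hc) (by linear_combination H.e3)⟩

lemma map (H : Hold m I J z w a b) (φ : A →ₐ[k] B) : Hold m I J (φ z) (φ w) (φ a) (φ b) :=
  ⟨by simpa only [map_mul, map_pow, aeval_algHom_apply] using congrArg φ H.e1,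
    by simpa only [map_mul, map_pow, aeval_algHom_apply, Tri.map_a2] using congrArg φ H.e2,
    by simpa only [map_mul, map_pow, aeval_algHom_apply, Tri.map_a4] using congrArg φ H.e3⟩

lemma of_map (φ : A →ₐ[k] B) (hφ : Function.Injective φ)
    (H : Hold m I J (φ z) (φ w) (φ a) (φ b)) : Hold m I J z w a b :=
  ⟨hφ (by simpa only [map_mul, map_pow, aeval_algHom_apply] using H.e1),
    hφ (by simpa only [map_mul, map_pow, aeval_algHom_apply, Tri.map_a2] using H.e2),
    hφ (by simpa only [map_mul, map_pow, aeval_algHom_apply, Tri.map_a4] using H.e3)⟩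

lemma shift (H : Hold m I J z w a b) (c d : k) :
    Hold m (I.shift c d) (J.shift d c) (z - algebraMap k A c) (w - algebraMap k A d) a b := by
  refine ⟨?_, ?_, ?_⟩
  · simpa only [Tri.shift, Tri.aeval_taylor] using H.e1
  · rw [Tri.shift_a2, Tri.shift_a2]
    simpa only [Tri.shift, Tri.aeval_taylor] using H.e2
  · rw [Tri.shift_a4, Tri.shift_a4]
    simpa only [Tri.shift, Tri.aeval_taylor] using H.e3

end Hold

variable (k) in
/-- The point `(z, w)` satisfies a nonzero equation of degree at most two. -/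
def Conic (z w : A) : Prop :=
  ∃ a b c d e f : k, ¬ (a = 0 ∧ b = 0 ∧ c = 0 ∧ d = 0 ∧ e = 0 ∧ f = 0) ∧
    a • z ^ 2 + b • (z * w) + c • w ^ 2 + d • z + e • w + algebraMap k A f = 0

namespace Conic

variable {z w : A}

lemma map (H : Conic k z w) (φ : A →ₐ[k] B) : Conic k (φ z) (φ w) := by
  obtain ⟨a, b, c, d, e, f, h0, h⟩ := H
  exact ⟨a, b, c, d, e, f, h0, by simpa using congrArg φ h⟩

lemma of_map (φ : A →ₐ[k] B) (hφ : Function.Injective φ) (H : Conic k (φ z) (φ w)) :
    Conic k z w := by
  obtain ⟨a, b, c, d, e, f, h0, h⟩ := H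
  exact ⟨a, b, c, d, e, f, h0, hφ (by simpa using h)⟩

lemma of_shift (s t : k) (H : Conic k (z - algebraMap k A s) (w - algebraMap k A t)) :
    Conic k z w := by
  obtain ⟨a, b, c, d, e, f, h0, h⟩ := H
  refine ⟨a, b, c, d - 2 * a * s - b * t, e - 2 * c * t - b * s,
    f + a * s ^ 2 + b * s * t + c * t ^ 2 - d * s - e * t, ?_, ?_⟩
  · rintro ⟨rfl, rfl, rfl, h4, h5, h6⟩
    simp only [mul_zero, zero_mul, sub_zero, add_zero] at h4 h5 h6
    subst h4 h5
    exact h0 (by simpa using h6)
  · simp only [Algebra.smul_def, map_sub, map_add, map_mul, map_pow, map_ofNat] at h ⊢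
    linear_combination h

open MvPolynomial in
lemma exists_mv [CharZero k] (H : Conic k z w) : ∃ F : MvPolynomial (Fin 2) k, F ≠ 0 ∧
    F.totalDegree ≤ 2 ∧ MvPolynomial.aeval ![z, w] F = 0 := by
  obtain ⟨a, b, c, d, e, f, h0, h⟩ := H
  refine ⟨a • MvPolynomial.X 0 ^ 2 + b • (MvPolynomial.X 0 * MvPolynomial.X 1) +
    c • MvPolynomial.X 1 ^ 2 + d • MvPolynomial.X 0 + e • MvPolynomial.X 1 + MvPolynomial.C f,
    fun hF => h0 ?_, ?_, by simpa using h⟩
  · have ev : ∀ x y : k, a * x ^ 2 + b * (x * y) + c * y ^ 2 + d * x + e * y + f = 0 :=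
      fun x y => by simpa using congrArg (MvPolynomial.eval ![x, y]) hF
    have h1 := ev 0 0
    have h2 := ev 1 0
    have h3 := ev (-1) 0
    have h4 := ev 0 1
    have h5 := ev 0 (-1)
    have h6 := ev 1 1
    refine ⟨?_, ?_, ?_, ?_, ?_, ?_⟩
    · linear_combination (h2 + h3) / 2 - h1
    · linear_combination h6 - h2 - h4 + h1
    · linear_combination (h4 + h5) / 2 - h1
    · linear_combination (h2 - h3) / 2
    · linear_combination (h4 - h5) / 2
    · linear_combination h1
  · have hX : ∀ i : Fin 2, (MvPolynomial.X i : MvPolynomial (Fin 2) k).totalDegree ≤ 1 :=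
      fun i => (totalDegree_X i).le
    have h2 : ∀ i : Fin 2, (MvPolynomial.X i ^ 2 : MvPolynomial (Fin 2) k).totalDegree ≤ 2 :=
      fun i => (totalDegree_X_pow i 2).le
    refine (totalDegree_add _ _).trans (max_le ((totalDegree_add _ _).trans (max_le
      ((totalDegree_add _ _).trans (max_le ((totalDegree_add _ _).trans (max_le
      ((totalDegree_add _ _).trans (max_le ?_ ?_)) ?_)) ?_)) ?_)) (by simp))
    · exact (totalDegree_smul_le _ _).trans (h2 0)
    · exact (totalDegree_smul_le _ _).trans ((totalDegree_mul _ _).trans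
        (add_le_add (hX 0) (hX 1)))
    · exact (totalDegree_smul_le _ _).trans (h2 1)
    · exact (totalDegree_smul_le _ _).trans ((hX 0).trans one_le_two)
    · exact (totalDegree_smul_le _ _).trans ((hX 1).trans one_le_two)

end Conic

/-- The multiplicity conditions of the main case: no root other than `0` is big. -/
structure Small (m : ℕ) (f g : k[X]) : Prop where
  f0 : f ≠ 0
  g0 : g ≠ 0
  deg : g.natDegree ≤ m
  eq : f.rootMultiplicity 0 = g.rootMultiplicity 0
  lt : f.rootMultiplicity 0 < m
  fa : ∀ a, a ≠ 0 → 2 * f.rootMultiplicity a < m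
  ga : ∀ a, a ≠ 0 → 2 * g.rootMultiplicity a < m

end Ivrii.TA
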