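import Pool.Agent.P.MP_7a8567_an.TA.Lead
import Pool.Agent.P.MP_7a8567_an.TA.Ids

/-! Puiseux embeddings of a function field of one variable. -/

open Polynomial Ivrii.PX IntermediateField

noncomputable section

namespace Ivrii.TA

lemma exists_lift {R K L : Type*} [CommRing R] [Field K] [Field L] (φ : R →+* K) (ψ : R →+* L)
    (h : ∀ a, φ a = 0 ↔ ψ a = 0) (hs : ∀ x, ∃ a b, x = φ a / φ b) :
    ∃ σ : K →+* L, ∀ a, σ (φ a) = ψ a := by
  let _ := (RingHom.kerLift φ).toAlgebra
  have : FaithfulSMul (R ⧸ RingHom.ker φ) K :=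
    (faithfulSMul_iff_algebraMap_injective _ _).2 (RingHom.kerLift_injective φ)
  have : IsFractionRing (R ⧸ RingHom.ker φ) K := IsFractionRing.of_field _ _ fun x => by
    obtain ⟨a, b, rfl⟩ := hs x
    exact ⟨Ideal.Quotient.mk _ a, Ideal.Quotient.mk _ b, rfl⟩
  have hi : Function.Injective (Ideal.Quotient.lift (RingHom.ker φ) ψ fun a ha => (h a).1 ha) :=
    RingHom.lift_injective_of_ker_le_ideal _ _ fun a ha => (h a).2 ha
  exact ⟨IsFractionRing.lift hi, fun a => IsFractionRing.lift_algebraMap hi (Ideal.Quotient.mk _ a)⟩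

variable {k K : Type*} [Field k] [Field K] [Algebra k K]

/-- A field map out of a function field of one variable intertwines derivations up to a factor. -/
lemma intertwine [CharZero k] {L : Type*} [Field L] [Algebra k L] (z : K)
    [Algebra.IsAlgebraic k⟮z⟯ K] (σ : K →+* L) (D : Derivation k K K) (d : Derivation k L L)
    (hc : ∀ c : k, d (σ (algebraMap k K c)) = 0) (f : K) :
    d (σ f) * σ (D z) = σ (D f) * d (σ z) := by
  have h0 : ∀ x ∈ k⟮z⟯, d (σ x) * σ (D z) = σ (D x) * d (σ z) := by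
    intro x hx
    induction hx using adjoin_induction with
    | mem y hy => rw [Set.mem_singleton_iff.1 hy, mul_comm]
    | algebraMap c => simp [hc]
    | add x y _ _ h1 h2 =>
      simp only [map_add]
      linear_combination h1 + h2
    | inv x _ h1 =>
      simp only [map_inv₀, Derivation.leibniz_inv, smul_eq_mul, map_mul, map_neg, map_pow]
      linear_combination (-(σ x)⁻¹ ^ 2) * h1
    | mul x y _ _ h1 h2 =>
      simp only [map_mul, Derivation.leibniz, smul_eq_mul, map_add]
      linear_combination σ y * h1 + σ x * h2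
  have h1 : ∀ p : (k⟮z⟯)[X], d (σ (aeval f p)) * σ (D z) - σ (D (aeval f p)) * d (σ z) =
      σ (aeval f (derivative p)) * (d (σ f) * σ (D z) - σ (D f) * d (σ z)) := by
    intro p
    induction p using Polynomial.induction_on with
    | C a => simpa [sub_eq_zero] using h0 a a.2
    | add p q hp hq =>
      simp only [map_add]
      linear_combination hp + hq
    | monomial n a ih =>
      rw [pow_succ, ← mul_assoc]
      generalize C a * X ^ n = p at ih
      simp only [map_mul, derivative_mul, derivative_X, aeval_X, mul_one, map_add,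
        Derivation.leibniz, smul_eq_mul]
      linear_combination σ f * ih
  have hi : IsIntegral k⟮z⟯ f := (Algebra.IsAlgebraic.isAlgebraic f).isIntegral
  have : CharZero k⟮z⟯ := charZero_of_injective_algebraMap (algebraMap k _).injective
  have h2 := (minpoly.irreducible hi).separable.aeval_derivative_ne_zero (minpoly.aeval _ f)
  have h3 := h1 (minpoly k⟮z⟯ f)
  rw [minpoly.aeval] at h3
  simp only [map_zero, zero_mul, sub_zero] at h3
  exact sub_eq_zero.1 ((mul_eq_zero.1 h3.symm).resolve_left ((_root_.map_ne_zero σ).2 h2))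

/-- The ramification map as an algebra map. -/
def ramA (n : ℕ+) : LaurentSeries k →ₐ[k] LaurentSeries k := { ram n with commutes' := ram_C n }

@[simp] lemma ramA_apply (n : ℕ+) (f : LaurentSeries k) : ramA n f = ram n f := rfl

lemma ram_aeval (n : ℕ+) (f : LaurentSeries k) (p : k[X]) : ram n (aeval f p) = aeval (ram n f) p :=
  (aeval_algHom_apply (ramA n) f p).symm

lemma gen_surj (z : K) (x : k⟮z⟯) :
    ∃ a b : k[X], x = aeval (AdjoinSimple.gen k z) a / aeval (AdjoinSimple.gen k z) b := by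
  obtain ⟨a, b, h⟩ := (mem_adjoin_simple_iff k (α := z) x).1 x.2
  refine ⟨a, b, Subtype.ext ?_⟩
  rw [h]
  simp

lemma alg_aeval_gen (z : K) (a : k[X]) :
    algebraMap k⟮z⟯ K (aeval (AdjoinSimple.gen k z) a) = aeval z a := by
  rw [← aeval_algebraMap_apply, AdjoinSimple.algebraMap_gen]

lemma ge_prod {j : ℕ} {s : Multiset (LaurentSeries k)} (h0 : s ≠ 0) (h : ∀ x ∈ s, Ge j x) :
    Ge j s.prod := by
  obtain ⟨a, ha⟩ := Multiset.exists_mem_of_ne_zero h0
  obtain ⟨t, rfl⟩ := Multiset.exists_cons_of_mem ha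
  rw [Multiset.prod_cons]
  have : Ge 0 t.prod := Multiset.prod_induction _ _ (fun a b h1 h2 => by simpa using h1.mul h2)
    Lead.one.1 fun x hx => (h x (Multiset.mem_cons_of_mem hx)).mono (by omega)
  simpa using (h a ha).mul this

variable [IsAlgClosed k] [CharZero k]

theorem places {z : K} (hz : Transcendental k z) [FiniteDimensional k⟮z⟯ K] {y : LaurentSeries k}
    (hy : Transcendental k y) : ∃ n : ℕ+, (∃ ψ : K →ₐ[k] LaurentSeries k, ψ z = ram n y) ∧
      (∀ w : K, ∃ M : ℕ, ∀ ψ : K →ₐ[k] LaurentSeries k, ψ z = ram n y → Ge (-M) (ψ w)) ∧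
      ∀ (f : K) (a b : k[X]) (j : ℕ), (minpoly k⟮z⟯ f).coeff 0 =
        aeval (AdjoinSimple.gen k z) a / aeval (AdjoinSimple.gen k z) b →
        (∀ ψ : K →ₐ[k] LaurentSeries k, ψ z = ram n y → Ge j (ψ f)) →
        Ge j (ram n (aeval y a / aeval y b)) := by
  classical
  obtain ⟨φ, hφ⟩ := exists_lift (aeval (R := k) (AdjoinSimple.gen k z)).toRingHom
    (aeval (R := k) y).toRingHom (fun a => ⟨fun h => by
      have h1 : aeval z a = 0 := by
        rw [← alg_aeval_gen, show aeval (AdjoinSimple.gen k z) a = 0 from h, map_zero]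
      rw [transcendental_iff.1 hz a h1, map_zero], fun h => by
      rw [transcendental_iff.1 hy a h, map_zero]⟩) (gen_surj z)
  replace hφ : ∀ a : k[X], φ (aeval (AdjoinSimple.gen k z) a) = aeval y a := hφ
  obtain ⟨n, hs, hr⟩ := embed_all (K := K) φ
  have mk : ∀ ψ : K →+* LaurentSeries k, ψ.comp (algebraMap k⟮z⟯ K) = (ram n).comp φ →
      ∃ ψ' : K →ₐ[k] LaurentSeries k, ψ' z = ram n y ∧ ∀ x, ψ' x = ψ x := fun ψ h => by
    have h1 : ∀ a : k[X], ψ (aeval z a) = ram n (aeval y a) := fun a => by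
      rw [← alg_aeval_gen, ← hφ]
      exact RingHom.congr_fun h _
    refine ⟨{ ψ with commutes' := fun c => ?_ }, by simpa using h1 X, fun _ => rfl⟩
    have := h1 (C c)
    rw [aeval_C, aeval_C] at this
    exact this.trans (ram_C n c)
  have back : ∀ ψ : K →ₐ[k] LaurentSeries k, ψ z = ram n y →
      (ψ : K →+* LaurentSeries k).comp (algebraMap k⟮z⟯ K) = (ram n).comp φ := fun ψ h => by
    refine RingHom.ext fun x => ?_
    obtain ⟨a, b, rfl⟩ := gen_surj z x
    simp only [RingHom.comp_apply, map_div₀, alg_aeval_gen, hφ, ram_aeval, ← h, RingHom.coe_coe,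
      aeval_algHom_apply]
  refine ⟨n, ?_, fun w => ?_, fun f a b j hf h => ?_⟩
  · obtain ⟨ψ, h, -⟩ := hr 0 0 (by simp)
    obtain ⟨ψ', h', -⟩ := mk ψ h
    exact ⟨ψ', h'⟩
  · have hm := (minpoly.monic (IsIntegral.of_finite k⟮z⟯ w)).map ((ram n).comp φ)
    refine ⟨((minpoly k⟮z⟯ w).map ((ram n).comp φ)).roots.toFinset.sup fun v => (-v.order).toNat,
      fun ψ h i hi => HahnSeries.coeff_eq_zero_of_lt_order (hi.trans_le ?_)⟩
    have h1 : ψ w ∈ ((minpoly k⟮z⟯ w).map ((ram n).comp φ)).roots.toFinset := by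
      rw [Multiset.mem_toFinset, mem_roots hm.ne_zero, IsRoot, eval_map, ← back ψ h]
      have := hom_eval₂ (minpoly k⟮z⟯ w) (algebraMap k⟮z⟯ K) (ψ : K →+* LaurentSeries k) w
      rw [← aeval_def, minpoly.aeval, map_zero] at this
      exact this.symm
    have := Finset.le_sup (f := fun v : LaurentSeries k => (-v.order).toNat) h1
    omega
  · have hi := IsIntegral.of_finite k⟮z⟯ f
    have hm := (minpoly.monic hi).map ((ram n).comp φ)
    have e := (hs f).coeff_zero_eq_prod_roots_of_monic hm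
    rw [coeff_map, hf, RingHom.comp_apply, map_div₀, hφ, hφ] at e
    rw [e]
    have h1 : Ge j ((minpoly k⟮z⟯ f).map ((ram n).comp φ)).roots.prod := by
      refine ge_prod (fun h0 => ?_) fun v hv => ?_
      · have := (hs f).natDegree_eq_card_roots
        rw [h0, (minpoly.monic hi).natDegree_map] at this
        exact (minpoly.natDegree_pos hi).ne' this
      · rw [mem_roots hm.ne_zero, IsRoot, eval_map] at hv
        obtain ⟨ψ, h2, rfl⟩ := hr f v hv
        obtain ⟨ψ', h3, h4⟩ := mk ψ h2
        exact h4 f ▸ h ψ' h3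
    simpa using (Lead.one.neg.pow _).1.mul h1

omit [IsAlgClosed k] [CharZero k] in
lemma lead_fin (c : k) {p : k[X]} (hp : p ≠ 0) : ∃ a, a ≠ 0 ∧ Lead (p.rootMultiplicity c : ℕ) a
    (aeval (algebraMap k (LaurentSeries k) c + HahnSeries.single 1 1) p) := by
  obtain ⟨a, ha, h⟩ := (Lead.single 1 (1 : k)).aeval one_pos one_ne_zero
    (p := taylor c p) (fun h => hp ((taylor_eq_zero _ _).1 h))
  refine ⟨a, ha, ?_⟩
  rw [← Tri.aeval_taylor _ c, add_sub_cancel_left, rootMultiplicity_eq_rootMultiplicity]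
  simpa [taylor_apply] using h

omit [IsAlgClosed k] [CharZero k] in
lemma transc_fin (c : k) :
    Transcendental k (algebraMap k (LaurentSeries k) c + HahnSeries.single 1 1) :=
  transcendental_iff.2 fun p h => by_contra fun hp => by
    obtain ⟨a, ha, h1⟩ := lead_fin c hp
    exact h1.ne_zero ha h

omit [IsAlgClosed k] [CharZero k] in
lemma transc_inf : Transcendental k (HahnSeries.single (-1) 1 : LaurentSeries k) :=
  transcendental_iff.2 fun p h => by_contra fun hp =>
    ((Lead.single (-1) (1 : k)).aeval_neg (by norm_num) p).ne_zero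
      (by simpa using hp) h

/-- A function without finite poles that vanishes at infinity is zero. -/
theorem places_inf {z : K} (hz : Transcendental k z) [FiniteDimensional k⟮z⟯ K] : ∃ n : ℕ+,
    (∀ w : K, ∃ M : ℕ, ∀ ψ : K →ₐ[k] LaurentSeries k, ψ z = ram n (HahnSeries.single (-1) 1) →
      Ge (-M) (ψ w)) ∧
    ∀ f : K, (∀ (c : k) (e : ℕ+) (ψ : K →ₐ[k] LaurentSeries k),
      ψ z = ram e (algebraMap k _ c + HahnSeries.single 1 1) → Ge 0 (ψ f)) →
      (∀ ψ : K →ₐ[k] LaurentSeries k, ψ z = ram n (HahnSeries.single (-1) 1) → Ge 1 (ψ f)) →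
      f = 0 := by
  classical
  obtain ⟨n, -, h2, h3⟩ := places hz (transc_inf (k := k))
  refine ⟨n, h2, fun f hf hi => by_contra fun h0 => ?_⟩
  obtain ⟨a, b, e⟩ := gen_surj z ((minpoly k⟮z⟯ f).coeff 0)
  have h4 := minpoly.coeff_zero_ne_zero (IsIntegral.of_finite k⟮z⟯ f) h0
  have ha : a ≠ 0 := by
    rintro rfl
    simp [e] at h4
  have hb : b ≠ 0 := by
    rintro rfl
    simp [e] at h4
  obtain ⟨c, rfl⟩ : b ∣ a := (IsAlgClosed.dvd_iff_roots_le_roots hb ha).2
    (Multiset.le_iff_count.2 fun x => by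
      obtain ⟨n', -, -, h5⟩ := places hz (transc_fin x)
      obtain ⟨c1, n1, l1⟩ := lead_fin x ha
      obtain ⟨c2, n2, l2⟩ := lead_fin x hb
      have := ((l1.div l2 n2).ram n').le_of_ge (div_ne_zero n1 n2) (h5 f a b 0 e (hf x n'))
      have h6 : (0 : ℤ) < (n' : ℕ) := by exact_mod_cast n'.pos
      have h7 := nonneg_of_mul_nonneg_right this h6
      rw [count_roots, count_roots]
      omega)
  have h5 := h3 f _ b 1 e hi
  rw [map_mul, mul_div_cancel_left₀ _ fun h => hb (transcendental_iff.1 transc_inf b h)] at h5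
  have := (((Lead.single (-1) (1 : k)).aeval_neg (by norm_num) c).ram n).le_of_ge
    (by simpa using right_ne_zero_of_mul ha) h5
  have h6 : (0 : ℤ) ≤ (n : ℕ) * (c.natDegree : ℕ) := by positivity
  push_cast at this
  linarith

/-- The chain rule along a Puiseux embedding. -/
lemma euler_place {z : K} [FiniteDimensional k⟮z⟯ K] {D : Derivation k K K} (hD : D z = 1)
    (ψ : K →ₐ[k] LaurentSeries k) (f : K) :
    euler k k (ψ f) = euler k k (ψ z) * ψ (D f) := by
  have := intertwine z (ψ : K →+* LaurentSeries k) D (euler k k) (fun c => by simp) f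
  simpa [hD, mul_comm] using this

omit [IsAlgClosed k] in
lemma transc_of_der {z : K} {D : Derivation k K K} (hD : D z ≠ 0) : Transcendental k z := by
  intro h
  have h1 := (minpoly.irreducible h.isIntegral).separable.aeval_derivative_ne_zero
    (minpoly.aeval k z)
  have h2 := D.map_aeval (minpoly k z) z
  rw [minpoly.aeval, map_zero, smul_eq_mul] at h2
  exact mul_ne_zero h1 hD h2.symm

lemma const_of_der {z : K} [FiniteDimensional k⟮z⟯ K] {D : Derivation k K K} (hD : D z = 1)
    {f : K} (hf : D f = 0) : ∃ c : k, f = algebraMap k K c := by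
  obtain ⟨n, ⟨ψ, -⟩, -⟩ := places (transc_of_der (D := D) (z := z) (by simp [hD]))
    (transc_inf (k := k))
  have h := euler_place hD ψ f
  rw [hf, map_zero, mul_zero] at h
  exact ⟨_, ψ.injective ((eq_C_of_euler h).trans (ψ.commutes _).symm)⟩

end Ivrii.TA
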