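import Pool.Agent.P.MP_7a8567_an.TA.Ids

/-! Endgame of Theorem A, first part: consequences of identity (1) for `z = u ^ p`, `w = W u`. -/

open Polynomial

namespace Ivrii.TA

section Aux

variable {k : Type*} [Field k]

lemma pa_rm_pow {q : k[X]} (hq : q ≠ 0) (a : k) (n : ℕ) :
    (q ^ n).rootMultiplicity a = n * q.rootMultiplicity a := by
  induction n with
  | zero => rw [pow_zero, ← C_1, rootMultiplicity_C, zero_mul]
  | succ n ih =>
    rw [pow_succ, rootMultiplicity_mul (mul_ne_zero (pow_ne_zero _ hq) hq), ih]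
    ring

lemma pa_sub_ne {W : k[X]} (hW : derivative W ≠ 0) (b : k) : W - C b ≠ 0 := by
  intro h
  apply hW
  rw [sub_eq_zero.mp h, derivative_C]

lemma pa_aeval (W g : k[X]) : aeval W g = g.comp W := by
  rw [← comp_eq_aeval]

lemma pa_comp_ne {W g : k[X]} (hW : derivative W ≠ 0) (hg : g ≠ 0) : g.comp W ≠ 0 := by
  intro h
  rcases comp_eq_zero_iff.mp h with h | ⟨_, h⟩
  · exact hg h
  · apply hW
    rw [h, derivative_C]

lemma pa_rm_comp {W g : k[X]} (hW : derivative W ≠ 0) (hg : g ≠ 0) (a : k) :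
    (g.comp W).rootMultiplicity a =
      g.rootMultiplicity (W.eval a) * (W - C (W.eval a)).rootMultiplicity a := by
  obtain ⟨g1, h1, h2⟩ := exists_eq_pow_rootMultiplicity_mul_and_not_dvd g hg (W.eval a)
  have hne := pa_comp_ne hW hg
  set n := g.rootMultiplicity (W.eval a) with hn
  have e : g.comp W = (W - C (W.eval a)) ^ n * g1.comp W := by
    rw [h1]
    simp
  rw [e] at hne ⊢
  rw [rootMultiplicity_mul hne, pa_rm_pow (pa_sub_ne hW _), rootMultiplicity_eq_zero (p := g1.comp W)]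
  · simp
  · rw [IsRoot, eval_comp]
    rwa [dvd_iff_isRoot] at h2

lemma pa_rm_der [CharZero k] {W : k[X]} (hW : derivative W ≠ 0) (a : k) :
    (W - C (W.eval a)).rootMultiplicity a = (derivative W).rootMultiplicity a + 1 := by
  have hr : (W - C (W.eval a)).IsRoot a := by simp [IsRoot]
  have h1 := derivative_rootMultiplicity_of_root hr
  have h2 := (rootMultiplicity_pos (pa_sub_ne hW (W.eval a))).mpr hr
  rw [derivative_sub, derivative_C, sub_zero] at h1
  omega

/-- The multiplicity identity at a point. -/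
lemma pa_RM [CharZero k] {m : ℕ} {f g Z W : k[X]} (hf : f ≠ 0) (hg : g ≠ 0)
    (hZ : derivative Z ≠ 0) (hW : derivative W ≠ 0)
    (e1 : aeval Z f * derivative W ^ m = aeval W g * derivative Z ^ m) (a : k) :
    f.rootMultiplicity (Z.eval a) * ((derivative Z).rootMultiplicity a + 1) +
        m * (derivative W).rootMultiplicity a =
      g.rootMultiplicity (W.eval a) * ((derivative W).rootMultiplicity a + 1) +
        m * (derivative Z).rootMultiplicity a := by
  have h := congrArg (rootMultiplicity a) e1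
  rw [pa_aeval, pa_aeval,
    rootMultiplicity_mul (mul_ne_zero (pa_comp_ne hZ hf) (pow_ne_zero _ hW)),
    rootMultiplicity_mul (mul_ne_zero (pa_comp_ne hW hg) (pow_ne_zero _ hZ)),
    pa_rm_pow hW, pa_rm_pow hZ, pa_rm_comp hZ hf, pa_rm_comp hW hg, pa_rm_der hZ,
    pa_rm_der hW] at h
  exact h

lemma pa_one_root [IsAlgClosed k] [CharZero k] {W : k[X]} (hW : derivative W ≠ 0)
    (h : ∀ a, (derivative W).IsRoot a → W.IsRoot a) :
    ∃ (c u : k) (n : ℕ), c ≠ 0 ∧ W = C c * (X - C u) ^ (n + 1) := by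
  classical
  have hW0 : W ≠ 0 := fun h0 => hW (by rw [h0, derivative_zero])
  have hd : W.natDegree ≠ 0 := fun h0 => hW (by rw [eq_C_of_natDegree_eq_zero h0, derivative_C])
  have hc : ∀ a, W.IsRoot a → W.roots.count a = (derivative W).roots.count a + 1 := by
    intro a ha
    have := pa_rm_der hW a
    rw [ha.eq_zero, C_0, sub_zero] at this
    rw [count_roots, count_roots, this]
  have hle : (derivative W).roots ≤ W.roots := by
    rw [Multiset.le_iff_count]
    intro a
    by_cases ha : (derivative W).IsRoot a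
    · rw [hc a (h a ha)]
      omega
    · rw [count_roots, rootMultiplicity_eq_zero ha]
      exact Nat.zero_le _
  have c1 : W.roots.card = W.natDegree := IsAlgClosed.card_roots_eq_natDegree
  have c2 : (derivative W).roots.card = W.natDegree - 1 := by
    rw [IsAlgClosed.card_roots_eq_natDegree, natDegree_derivative]
  have hlt : (derivative W).roots < W.roots :=
    lt_of_le_of_ne hle fun e => by
      rw [e] at c2
      omega
  obtain ⟨u, hu⟩ := Multiset.lt_iff_cons_le.mp hlt
  have he : u ::ₘ (derivative W).roots = W.roots :=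
    Multiset.eq_of_le_of_card_le hu (by rw [Multiset.card_cons]; omega)
  have hall : ∀ a ∈ W.roots, a = u := by
    intro a ha
    by_contra hne
    have h1 := hc a ((mem_roots hW0).mp ha)
    rw [← he, Multiset.count_cons_of_ne hne] at h1
    omega
  have hrep : W.roots = Multiset.replicate W.natDegree u :=
    Multiset.eq_replicate.mpr ⟨c1, hall⟩
  refine ⟨W.leadingCoeff, u, W.natDegree - 1, leadingCoeff_ne_zero.mpr hW0, ?_⟩
  have := C_leadingCoeff_mul_prod_multiset_X_sub_C c1
  rw [hrep, Multiset.map_replicate, Multiset.prod_replicate] at this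
  rw [Nat.sub_add_cancel (Nat.one_le_iff_ne_zero.mpr hd)]
  exact this.symm

lemma pa_taylor_next (r : k) {G : k[X]} {n : ℕ} (hn : G.natDegree = n + 1) :
    (taylor r G).coeff n = G.coeff n + ((n : k) + 1) * r * G.coeff (n + 1) := by
  have hd : (hasseDeriv n G).natDegree < 2 := by
    have := natDegree_hasseDeriv_le G n
    omega
  rw [taylor_coeff, eval_eq_sum_range' hd, Finset.sum_range_succ, Finset.sum_range_one,
    hasseDeriv_coeff, hasseDeriv_coeff, zero_add, Nat.choose_self, add_comm 1 n,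
    Nat.choose_succ_self_right]
  push_cast
  ring

/-- No two consecutive coefficients are nonzero. -/
lemma pa_sparse {p : ℕ} (hp : 2 ≤ p) (a c : k) (ν : ℕ) (h : k[X]) (n : ℕ)
    (h1 : (C a * (X ^ ν * h.comp (C c * X ^ p))).coeff (n + 1) ≠ 0) :
    (C a * (X ^ ν * h.comp (C c * X ^ p))).coeff n = 0 := by
  have key : ∀ j, (C a * (X ^ ν * h.comp (C c * X ^ p))).coeff j ≠ 0 → ν ≤ j ∧ p ∣ j - ν := by
    intro j hj
    have e : h.comp (C c * X ^ p) = expand k p (h.comp (C c * X)) := by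
      rw [expand_eq_comp_X_pow, comp_assoc]
      simp
    rw [coeff_C_mul, coeff_X_pow_mul', e, coeff_expand (by omega)] at hj
    by_cases h1 : ν ≤ j
    · by_cases h2 : p ∣ j - ν
      · exact ⟨h1, h2⟩
      · simp [h2] at hj
    · simp [h1] at hj
  by_contra h0
  obtain ⟨a1, a2⟩ := key _ h1
  obtain ⟨b1, b2⟩ := key _ h0
  have e : n + 1 - ν = (n - ν) + 1 := by omega
  rw [e] at a2
  have := Nat.le_of_dvd one_pos ((Nat.dvd_add_right b2).mp a2)
  omega

lemma pa_deg_zero [CharZero k] {F G : k[X]} {r : k} (hr : r ≠ 0) (hG : G ≠ 0)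
    (e : F = taylor r G) (hF : ∀ n, F.coeff (n + 1) ≠ 0 → F.coeff n = 0)
    (hG' : ∀ n, G.coeff (n + 1) ≠ 0 → G.coeff n = 0) : G.natDegree = 0 ∧ F.natDegree = 0 := by
  have hd : F.natDegree = G.natDegree := by rw [e, natDegree_taylor]
  suffices h : G.natDegree = 0 from ⟨h, hd.trans h⟩
  by_contra h0
  obtain ⟨n, hn⟩ := Nat.exists_eq_succ_of_ne_zero h0
  have hn' : G.natDegree = n + 1 := hn
  have hF0 : F ≠ 0 := by
    rintro rfl
    rw [natDegree_zero] at hd
    exact h0 hd.symm
  have g1 : G.coeff (n + 1) ≠ 0 := by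
    rw [← hn']
    exact leadingCoeff_ne_zero.mpr hG
  have f1 : F.coeff (n + 1) ≠ 0 := by
    rw [← hn', ← hd]
    exact leadingCoeff_ne_zero.mpr hF0
  have h := pa_taylor_next r hn'
  rw [← e, hF n f1, hG' n g1, zero_add] at h
  have hc : ((n : k) + 1) ≠ 0 := Nat.cast_add_one_ne_zero n
  exact mul_ne_zero (mul_ne_zero hc hr) g1 h.symm

lemma pa_line {z w : k[X]} (a b : k) (h : w = C a * z + C b) : Conic k z w := by
  refine ⟨0, 0, 0, a, -1, b, by simp, ?_⟩
  rw [h]
  simp [smul_eq_C_mul]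

lemma pa_der [CharZero k] (c u : k) (n : ℕ) :
    derivative (C c * (X - C u) ^ (n + 1) : k[X]) = C (c * ((n : k) + 1)) * (X - C u) ^ n := by
  simp only [derivative_mul, derivative_C, zero_mul, zero_add, derivative_pow, derivative_sub,
    derivative_X, sub_zero, mul_one, Nat.add_sub_cancel, map_mul, map_add, map_natCast, map_one]
  push_cast
  ring

lemma pa_rm_self {c : k} (hc : c ≠ 0) (u : k) (n : ℕ) :
    (C c * (X - C u) ^ n : k[X]).rootMultiplicity u = n := by
  rw [rootMultiplicity_mul_X_sub_C_pow (C_ne_zero.mpr hc), rootMultiplicity_C, zero_add]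

lemma pa_rm_ne {c u a : k} (hc : c ≠ 0) (h : a ≠ u) (n : ℕ) :
    (C c * (X - C u) ^ n : k[X]).rootMultiplicity a = 0 := by
  apply rootMultiplicity_eq_zero
  simp [IsRoot, hc, sub_eq_zero, h]

end Aux

theorem polyA {k : Type*} [Field k] [IsAlgClosed k] [CharZero k] {m p : ℕ} {f g W : k[X]}
    (S : Small m f g) (hp : 1 ≤ p) (hW : derivative W ≠ 0) (h1 : p = 1 ∨ W.coeff 1 ≠ 0)
    (e1 : aeval (X ^ p : k[X]) f * derivative W ^ m =
      aeval W g * derivative (X ^ p : k[X]) ^ m) :
    Conic k (X ^ p : k[X]) W ∨ ∃ (M : ℕ) (c r cI cJ : k), 3 ≤ p ∧ 1 ≤ M ∧ c ≠ 0 ∧ r ≠ 0 ∧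
      cI ≠ 0 ∧ cJ ≠ 0 ∧ W = C c * (X + C r) ^ p ∧ f = C cI * X ^ ((p - 1) * M) ∧
      g = C cJ * X ^ ((p - 1) * M) := by
  obtain ⟨q, rfl⟩ : ∃ q, p = q + 1 := ⟨p - 1, by omega⟩
  have hq : ((q : k) + 1) ≠ 0 := Nat.cast_add_one_ne_zero q
  have dZ : derivative (X ^ (q + 1) : k[X]) = C ((q : k) + 1) * (X - C 0) ^ q := by
    simp
  have hZ : derivative (X ^ (q + 1) : k[X]) ≠ 0 := by
    rw [dZ]
    exact mul_ne_zero (C_ne_zero.mpr hq) (pow_ne_zero _ (X_sub_C_ne_zero 0))
  have RM := pa_RM S.f0 S.g0 hZ hW e1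
  have z0 : (derivative (X ^ (q + 1) : k[X])).rootMultiplicity 0 = q := by
    rw [dZ, pa_rm_self hq]
  have za : ∀ a, a ≠ 0 → (derivative (X ^ (q + 1) : k[X])).rootMultiplicity a = 0 := by
    intro a ha
    rw [dZ, pa_rm_ne hq ha]
  have hroot : ∀ a, (derivative W).IsRoot a → W.IsRoot a := by
    intro a ha
    by_contra hne
    have hj := (rootMultiplicity_pos hW).mpr ha
    have hE : (derivative (X ^ (q + 1) : k[X])).rootMultiplicity a = 0 := by
      by_cases h0 : a = 0
      · subst h0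
        rw [z0]
        rcases h1 with h1 | h1
        · omega
        · exfalso
          apply h1
          have := ha.eq_zero
          rw [← coeff_zero_eq_eval_zero, coeff_derivative] at this
          simpa using this
      · exact za a h0
    have r := RM a
    have s := S.ga _ hne
    rw [hE] at r
    nlinarith
  obtain ⟨c, u, q', hc, rfl⟩ := pa_one_root hW hroot
  have hq' : ((q' : k) + 1) ≠ 0 := Nat.cast_add_one_ne_zero q'
  have hcq := mul_ne_zero hc hq'
  have dW := pa_der c u q'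
  have hμ := S.eq
  have hlt := S.lt
  by_cases hu : u = 0
  · subst hu
    have r := RM 0
    rw [z0, dW, pa_rm_self hcq] at r
    simp only [eval_pow, eval_X, eval_mul, eval_C, eval_sub, sub_zero, ne_eq, Nat.add_eq_zero_iff,
      one_ne_zero, and_false, not_false_eq_true, zero_pow, mul_zero, ← hμ] at r
    have : q = q' := by
      rcases lt_trichotomy q q' with h | h | h
      · nlinarith
      · exact h
      · nlinarith
    subst this
    left
    exact pa_line c 0 (by simp)
  have r0 := RM 0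
  have ru := RM u
  rw [z0, dW, pa_rm_ne hcq (Ne.symm hu)] at r0
  rw [za u hu, dW, pa_rm_self hcq] at ru
  have s0 := S.ga (eval 0 (C c * (X - C u) ^ (q' + 1))) (by simp [hc, hu])
  have su := S.fa (eval u (X ^ (q + 1))) (by simp [hu])
  have ev0 : eval (0 : k) (X ^ (q + 1)) = 0 := by simp
  have evu : eval u (C c * (X - C u) ^ (q' + 1)) = 0 := by simp
  rw [ev0] at r0
  rw [evu, ← hμ] at ru
  generalize g.rootMultiplicity (eval 0 (C c * (X - C u) ^ (q' + 1))) = ν' at r0 s0
  generalize f.rootMultiplicity (eval u (X ^ (q + 1))) = ν at ru su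
  obtain ⟨f1, hf1, -⟩ := exists_eq_pow_rootMultiplicity_mul_and_not_dvd f S.f0 0
  obtain ⟨g1, hg1, -⟩ := exists_eq_pow_rootMultiplicity_mul_and_not_dvd g S.g0 0
  rw [← hμ] at hg1
  have f10 : f1 ≠ 0 := fun h => S.f0 (by rw [hf1, h, mul_zero])
  have g10 : g1 ≠ 0 := fun h => S.g0 (by rw [hg1, h, mul_zero])
  generalize f.rootMultiplicity 0 = μ at r0 ru hf1 hg1 hlt
  rw [C_0, sub_zero] at hf1 hg1
  obtain ⟨M, rfl⟩ : ∃ M, m = μ + M := ⟨m - μ, by omega⟩
  have hM : 1 ≤ M := by omega
  have a0 : μ = ν' + M * q := by nlinarith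
  have au : μ = ν + M * q' := by nlinarith
  by_cases hq0 : q = 0 ∨ q' = 0
  · have : q = 0 ∧ q' = 0 := by
      rcases hq0 with h | h
      · subst h
        refine ⟨rfl, ?_⟩
        by_contra h'
        have : 1 ≤ q' := Nat.one_le_iff_ne_zero.mpr h'
        nlinarith
      · subst h
        refine ⟨?_, rfl⟩
        by_contra h'
        have : 1 ≤ q := Nat.one_le_iff_ne_zero.mpr h'
        nlinarith
    obtain ⟨rfl, rfl⟩ := this
    left
    refine pa_line c (-(c * u)) ?_
    simp only [zero_add, pow_one, map_neg, map_mul]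
    ring
  have x0 : (q + 1) * μ = ν' + q * (μ + M) := by nlinarith
  have xu : (q' + 1) * μ = ν + q' * (μ + M) := by nlinarith
  have key : C ((c * ((q' : k) + 1)) ^ (μ + M)) * (X ^ ν' * f1.comp (C 1 * X ^ (q + 1))) =
      taylor (-u) (C (c ^ μ * ((q : k) + 1) ^ (μ + M)) *
        (X ^ ν * g1.comp (C c * X ^ (q' + 1)))) := by
    have hne : (X ^ (q * (μ + M)) * (X - C u) ^ (q' * (μ + M)) : k[X]) ≠ 0 :=
      mul_ne_zero (pow_ne_zero _ X_ne_zero) (pow_ne_zero _ (X_sub_C_ne_zero u))
    apply mul_left_cancel₀ hne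
    rw [pa_aeval, pa_aeval, dW, dZ, hf1, hg1, C_0, sub_zero] at e1
    simp only [mul_comp, pow_comp, X_comp, mul_pow, ← pow_mul, x0, xu] at e1
    rw [taylor_apply]
    simp only [mul_comp, pow_comp, X_comp, C_comp, comp_assoc, map_neg, ← sub_eq_add_neg,
      map_one, one_mul, map_mul, map_pow]
    simp only [map_mul] at e1
    linear_combination e1
  have hG : C (c ^ μ * ((q : k) + 1) ^ (μ + M)) * (X ^ ν * g1.comp (C c * X ^ (q' + 1))) ≠ 0 := by
    refine mul_ne_zero (C_ne_zero.mpr (mul_ne_zero (pow_ne_zero _ hc) (pow_ne_zero _ hq)))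
      (mul_ne_zero (pow_ne_zero _ X_ne_zero) (pa_comp_ne ?_ g10))
    have := pa_der c 0 q'
    rw [C_0, sub_zero] at this
    rw [this]
    exact mul_ne_zero (C_ne_zero.mpr hcq) (pow_ne_zero _ X_ne_zero)
  obtain ⟨dG, dF⟩ := pa_deg_zero (neg_ne_zero.mpr hu) hG key
    (pa_sparse (by omega) _ _ _ _) (pa_sparse (by omega) _ _ _ _)
  have hF : (X ^ ν' * f1.comp (C 1 * X ^ (q + 1)) : k[X]) ≠ 0 := by
    refine mul_ne_zero (pow_ne_zero _ X_ne_zero) (pa_comp_ne ?_ f10)
    rwa [C_1, one_mul]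
  rw [natDegree_C_mul (mul_ne_zero (pow_ne_zero _ hc) (pow_ne_zero _ hq)),
    natDegree_mul (pow_ne_zero _ X_ne_zero) (right_ne_zero_of_mul (right_ne_zero_of_mul hG)),
    natDegree_X_pow, natDegree_comp, natDegree_C_mul hc, natDegree_X_pow] at dG
  rw [natDegree_C_mul (pow_ne_zero _ hcq),
    natDegree_mul (pow_ne_zero _ X_ne_zero) (right_ne_zero_of_mul hF),
    natDegree_X_pow, natDegree_comp, natDegree_C_mul one_ne_zero, natDegree_X_pow] at dF
  have n1 : ν = 0 := by omega
  have n2 : ν' = 0 := by omega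
  have n3 : g1.natDegree = 0 := by
    have : g1.natDegree * (q' + 1) = 0 := by omega
    simpa using this
  have n4 : f1.natDegree = 0 := by
    have : f1.natDegree * (q + 1) = 0 := by omega
    simpa using this
  have hqq : q = q' := by
    have : M * q = M * q' := by omega
    exact Nat.eq_of_mul_eq_mul_left hM this
  subst hqq
  by_cases h2 : q = 1
  · subst h2
    left
    refine ⟨c ^ 2, -2 * c, 1, -2 * c ^ 2 * u ^ 2, -2 * c * u ^ 2, c ^ 2 * u ^ 4, by simp, ?_⟩
    simp only [smul_eq_C_mul, ← C_eq_algebraMap, map_mul, map_pow, map_neg, map_ofNat, map_one]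
    ring
  · right
    have hμ' : μ = (q + 1 - 1) * M := by
      rw [Nat.add_sub_cancel, a0, n2]
      ring
    rw [eq_C_of_natDegree_eq_zero n3] at hg1 g10
    rw [eq_C_of_natDegree_eq_zero n4] at hf1 f10
    refine ⟨M, c, -u, f1.coeff 0, g1.coeff 0, by omega, hM, hc, neg_ne_zero.mpr hu,
      C_ne_zero.mp f10, C_ne_zero.mp g10, ?_, ?_, ?_⟩
    · rw [map_neg, ← sub_eq_add_neg]
    · rw [← hμ', mul_comm]
      exact hf1
    · rw [← hμ', mul_comm]
      exact hg1

end Ivrii.TA
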