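import Pool.Agent.P.MP_7a8567_an.TA.Ids

/-! Endgame of Theorem A, second part: the curves `z = u ^ p`, `w = c (u + r) ^ p`, `p ≥ 3`. -/

open Polynomial

namespace Ivrii.TA

section aux

variable {k : Type*} [Field k]

lemma pb_taylor_coeff (r : k) (f : k[X]) {N : ℕ} (hN : f.natDegree < N) (j : ℕ) :
    (taylor r f).coeff j = ∑ i ∈ Finset.range N, f.coeff i * (r ^ (i - j) * (i.choose j : k)) := by
  conv_lhs => rw [f.as_sum_range_C_mul_X_pow' hN]
  rw [map_sum, finsetSum_coeff]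
  refine Finset.sum_congr rfl fun i _ => ?_
  rw [taylor_apply, mul_comp, C_comp, pow_comp, X_comp, coeff_C_mul, coeff_X_add_C_pow]

/-- All exponents `n` that occur have `n + s` divisible by `p`. -/
def pb_Sp (p s : ℕ) (f : k[X]) : Prop := ∀ n, f.coeff n ≠ 0 → p ∣ n + s

lemma pb_Sp.next {p s : ℕ} {f : k[X]} (h : pb_Sp p s f) (hp : 2 ≤ p) {n : ℕ}
    (hn : f.coeff (n + 1) ≠ 0) : f.coeff n = 0 := by
  by_contra h0
  have h1 := h _ hn
  have h2 := h _ h0
  have h3 : p ∣ 1 := by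
    have : n + 1 + s = n + s + 1 := by ring
    rw [this] at h1
    exact (Nat.dvd_add_right h2).1 h1
  have := Nat.le_of_dvd one_pos h3
  omega

lemma pb_top [CharZero k] {p s N : ℕ} {r : k} {F G R : k[X]} (hp : 2 ≤ p) (hr : r ≠ 0)
    (hF : pb_Sp p s F) (hG : pb_Sp p s G) (h : F - taylor r G = R)
    (hR : ∀ n, N ≤ n → R.coeff n = 0) : F.natDegree ≤ N ∧ G.natDegree ≤ N := by
  rw [← max_le_iff]
  by_contra hn
  obtain ⟨n, hn1⟩ : ∃ n, max F.natDegree G.natDegree = n + 1 := ⟨_, (Nat.succ_pred_eq_of_pos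
    (lt_of_le_of_lt (Nat.zero_le N) (not_le.1 hn))).symm⟩
  have hNn : N ≤ n := by omega
  have hGd : G.natDegree < n + 2 := by have := le_max_right F.natDegree G.natDegree; omega
  have c1 : (taylor r G).coeff (n + 1) = G.coeff (n + 1) := by
    rw [pb_taylor_coeff r G hGd, Finset.sum_range_succ, Finset.sum_eq_zero]
    · simp
    · intro i hi
      rw [Nat.choose_eq_zero_of_lt (Finset.mem_range.1 hi)]
      simp
  have c0 : (taylor r G).coeff n = G.coeff n + G.coeff (n + 1) * (r * (n + 1)) := by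
    rw [pb_taylor_coeff r G hGd, Finset.sum_range_succ, Finset.sum_range_succ, Finset.sum_eq_zero]
    · simp
    · intro i hi
      rw [Nat.choose_eq_zero_of_lt (Finset.mem_range.1 hi)]
      simp
  have e1 := congrArg (fun P => P.coeff (n + 1)) h
  have e0 := congrArg (fun P => P.coeff n) h
  simp only [coeff_sub] at e1 e0
  rw [c1, hR _ (by omega), sub_eq_zero] at e1
  rw [c0, hR _ hNn] at e0
  have hne : G.coeff (n + 1) ≠ 0 := by
    rcases max_cases F.natDegree G.natDegree with ⟨h1, -⟩ | ⟨h1, -⟩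
    · have h2 : F.natDegree = n + 1 := by omega
      rw [← e1, ← h2]
      refine leadingCoeff_ne_zero.2 fun h0 => ?_
      rw [h0, natDegree_zero] at h2
      omega
    · have h2 : G.natDegree = n + 1 := by omega
      rw [← h2]
      refine leadingCoeff_ne_zero.2 fun h0 => ?_
      rw [h0, natDegree_zero] at h2
      omega
  rw [hG.next hp hne, hF.next hp (e1 ▸ hne)] at e0
  have h2 : G.coeff (n + 1) * (r * (n + 1)) = 0 := by linear_combination -e0
  have h3 : ((n : k) + 1) ≠ 0 := by exact_mod_cast Nat.succ_ne_zero n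
  exact mul_ne_zero hne (mul_ne_zero hr h3) h2

lemma pb_split {r : k} (hr : r ≠ 0) {e : ℕ} {f g R : k[X]}
    (h : f * (X + C r) ^ e - taylor r g * X ^ e = R * X ^ e * (X + C r) ^ e) :
    ∃ F G : k[X], f = F * X ^ e ∧ g = G * X ^ e ∧ F - taylor r G = R := by
  have hco : IsCoprime (X : k[X]) (X + C r) :=
    ⟨-C r⁻¹, C r⁻¹, by
      have : (C r⁻¹ : k[X]) * C r = 1 := by rw [← C_mul, inv_mul_cancel₀ hr, C_1]
      linear_combination this⟩
  have hc : IsCoprime ((X : k[X]) ^ e) ((X + C r) ^ e) := hco.pow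
  obtain ⟨F, hF⟩ : (X : k[X]) ^ e ∣ f :=
    hc.dvd_of_dvd_mul_right ⟨taylor r g + R * (X + C r) ^ e, by linear_combination h⟩
  obtain ⟨G', hG'⟩ : (X + C r : k[X]) ^ e ∣ taylor r g :=
    hc.symm.dvd_of_dvd_mul_right ⟨f - R * X ^ e, by linear_combination -h⟩
  have ht : ∀ G : k[X], taylor r (G * X ^ e) = taylor r G * (X + C r) ^ e := fun G => by
    simp only [taylor_apply, mul_comp, pow_comp, X_comp]
  have hg : g = taylor (-r) G' * X ^ e := by
    refine taylor_injective r ?_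
    rw [ht, taylor_taylor, add_neg_cancel, taylor_zero, hG', mul_comm]
  refine ⟨F, taylor (-r) G', by rw [hF, mul_comm], hg, ?_⟩
  have h1 : (X : k[X]) ^ e * (X + C r) ^ e ≠ 0 :=
    mul_ne_zero (pow_ne_zero _ X_ne_zero) (pow_ne_zero _ (X_add_C_ne_zero r))
  refine mul_right_cancel₀ h1 ?_
  rw [taylor_taylor, add_neg_cancel, taylor_zero]
  rw [hF, hG'] at h
  linear_combination h

lemma pb_sp {p s j d : ℕ} (hp : 0 < p) (hj : p ∣ j + s) {a : k} {h F : k[X]}
    (e : C a * X ^ j * h.comp (X ^ p) = F * X ^ (p * d)) : pb_Sp p s F := by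
  intro n hn
  rw [← coeff_mul_X_pow F (p * d) n, ← e, mul_assoc, coeff_C_mul, coeff_X_pow_mul',
    ← expand_eq_comp_X_pow, coeff_expand hp] at hn
  by_cases h1 : j ≤ n + p * d
  · rw [if_pos h1] at hn
    by_cases h2 : p ∣ n + p * d - j
    · have h3 : p ∣ n + s + p * d := by
        have : n + s + p * d = (n + p * d - j) + (j + s) := by omega
        rw [this]
        exact dvd_add h2 hj
      exact (Nat.dvd_add_left (dvd_mul_right p d)).1 h3
    · rw [if_neg h2, mul_zero] at hn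
      exact absurd rfl hn
  · rw [if_neg h1, mul_zero] at hn
    exact absurd rfl hn

lemma pb_two {q : ℕ} {F : k[X]} (h : pb_Sp (q + 3) 2 F) (hd : F.natDegree ≤ 2 * q + 4) :
    F = C (F.coeff (q + 1)) * X ^ (q + 1) + C (F.coeff (2 * q + 4)) * X ^ (2 * q + 4) := by
  ext n
  rw [coeff_add, coeff_C_mul_X_pow, coeff_C_mul_X_pow]
  by_cases h1 : n = q + 1
  · rw [if_pos h1, if_neg (by omega), add_zero, h1]
  · by_cases h2 : n = 2 * q + 4
    · rw [if_neg h1, if_pos h2, zero_add, h2]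
    · rw [if_neg h1, if_neg h2, add_zero]
      by_contra h0
      obtain ⟨t, ht⟩ := h n h0
      have h3 := le_natDegree_of_ne_zero h0
      rcases t with _ | _ | _ | t
      · omega
      · omega
      · omega
      · have : (q + 3) * (t + 1 + 1 + 1) = (q + 3) * t + 3 * q + 9 := by ring
        omega

/-- The case `p ≥ 4`. -/
lemma pb_big [CharZero k] {q : ℕ} {r K a1 a2 b1 b2 : k} (hr : r ≠ 0) (hK : K ≠ 0)
    (h : C a1 * X ^ (q + 2) + C a2 * X ^ (2 * q + 6) -
      (C b1 * (X + C r) ^ (q + 2) + C b2 * (X + C r) ^ (2 * q + 6)) =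
      C K * X ^ (q + 2) * (X + C r) ^ (q + 2) * (C r * (2 * X + C r))) : False := by
  have e0 := congrArg (eval 0) h
  have e1 := congrArg (fun P => eval 0 (derivative P)) h
  simp [derivative_pow] at e0 e1
  have hb2 : b2 = 0 := by
    have h1 : b2 * (r ^ (2 * q + 6) * ((q : k) + 4)) = 0 := by
      linear_combination ((q : k) + 2) * e0 - r * e1
    have h2 : ((q : k) + 4) ≠ 0 := by exact_mod_cast Nat.succ_ne_zero (q + 3)
    exact (mul_eq_zero.1 h1).resolve_right (mul_ne_zero (pow_ne_zero _ hr) h2)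
  have hb1 : b1 = 0 := by
    have h1 : b1 * r ^ (q + 2) = 0 := by rw [hb2] at e0; linear_combination -e0
    exact (mul_eq_zero.1 h1).resolve_right (pow_ne_zero _ hr)
  have h3 : C a1 + C a2 * X ^ (q + 4) = C K * (X + C r) ^ (q + 2) * (C r * (2 * X + C r)) := by
    refine mul_left_cancel₀ (pow_ne_zero (q + 2) (X_ne_zero (R := k))) ?_
    rw [hb1, hb2, C_0] at h
    linear_combination h
  have e2 := congrArg (fun P => eval 0 (derivative P)) h3
  simp [derivative_pow] at e2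
  have h4 : K * (r ^ (q + 3) * ((q : k) + 4)) = 0 := by linear_combination -e2
  have h2 : ((q : k) + 4) ≠ 0 := by exact_mod_cast Nat.succ_ne_zero (q + 3)
  exact mul_ne_zero hK (mul_ne_zero (pow_ne_zero _ hr) h2) h4

/-- The coefficients in the case `p = 3`. -/
lemma pb_three [CharZero k] {r K a1 a2 b1 b2 : k} (hr : r ≠ 0)
    (h : C a1 * X ^ 1 + C a2 * X ^ 4 - (C b1 * (X + C r) ^ 1 + C b2 * (X + C r) ^ 4) =
      C K * X ^ 1 * (X + C r) ^ 1 * (C r * (2 * X + C r))) :
    2 * a1 = -K * r ^ 3 ∧ 2 * a2 = -K ∧ 2 * b1 = K * r ^ 3 ∧ 2 * b2 = -K := by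
  have h' : C (a2 - b2) * X ^ 4 + C (-4 * b2 * r - 2 * K * r) * X ^ 3 +
      C (-6 * b2 * r ^ 2 - 3 * K * r ^ 2) * X ^ 2 +
      C (a1 - b1 - 4 * b2 * r ^ 3 - K * r ^ 3) * X ^ 1 + C (-b1 * r - b2 * r ^ 4) * X ^ 0
      = (0 : k[X]) := by
    simp only [map_sub, map_mul, map_neg, map_pow, map_ofNat]
    linear_combination h
  have e4 := congrArg (fun P => P.coeff 4) h'
  have e3 := congrArg (fun P => P.coeff 3) h'
  have e1 := congrArg (fun P => P.coeff 1) h'
  have e0 := congrArg (fun P => P.coeff 0) h'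
  simp only [coeff_add, coeff_C_mul_X_pow, coeff_zero] at e4 e3 e1 e0
  norm_num at e4 e3 e1 e0
  have h2 : 2 * b2 = -K := mul_right_cancel₀ hr (by linear_combination (-1 / 2 : k) * e3)
  have h1 : 2 * b1 = K * r ^ 3 :=
    mul_right_cancel₀ hr (by linear_combination -2 * e0 - r ^ 4 * h2)
  exact ⟨by linear_combination 2 * e1 + h1 + 4 * r ^ 3 * h2, by linear_combination 2 * e4 + h2,
    h1, h2⟩

/-- The last contradiction in the case `p = 3`. -/
lemma pb_last [CharZero k] {r L s t : k} {F G : k[X]} (hr : r ≠ 0) (hL : L ≠ 0)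
    (hst : t ≠ 2 * s) (hF : pb_Sp 3 1 F) (hG : pb_Sp 3 1 G)
    (h : F - taylor r G = C (L * (2 * s)) * X ^ 7 + C (L * (7 * s * r)) * X ^ 6 +
      C (L * ((2 * t + 9 * s) * r ^ 2)) * X ^ 5 + C (L * ((5 * t + 5 * s) * r ^ 3)) * X ^ 4 +
      C (L * ((4 * t + s) * r ^ 4)) * X ^ 3 + C (L * (t * r ^ 5)) * X ^ 2) : False := by
  obtain ⟨-, hd⟩ := pb_top (N := 8) (by norm_num) hr hF hG h (fun n hn => by
    simp only [coeff_add, coeff_C_mul_X_pow]
    rw [if_neg (by omega), if_neg (by omega), if_neg (by omega), if_neg (by omega),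
      if_neg (by omega), if_neg (by omega)]
    simp)
  have z : ∀ {P : k[X]}, pb_Sp 3 1 P → ∀ n, ¬ 3 ∣ n + 1 → P.coeff n = 0 := fun hP n hn => by
    by_contra h0
    exact hn (hP n h0)
  have e0 := congrArg (fun P => P.coeff 0) h
  have e1 := congrArg (fun P => P.coeff 1) h
  have e4 := congrArg (fun P => P.coeff 4) h
  have e7 := congrArg (fun P => P.coeff 7) h
  simp only [coeff_sub, coeff_add, coeff_C_mul_X_pow,
    pb_taylor_coeff r G (show G.natDegree < 9 by omega), Finset.sum_range_succ,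
    z hG 0 (by norm_num), z hG 1 (by norm_num), z hG 3 (by norm_num), z hG 4 (by norm_num),
    z hG 6 (by norm_num), z hG 7 (by norm_num), z hF 0 (by norm_num), z hF 1 (by norm_num),
    z hF 4 (by norm_num), z hF 7 (by norm_num)] at e0 e1 e4 e7
  norm_num [Nat.choose] at e0 e1 e4 e7
  have h1 : L * (r ^ 7 * (t - 2 * s)) = 0 := by
    linear_combination (-1 / 5 : k) * r ^ 4 * e4 + (3 / 2 : k) * r ^ 7 * e7 -
      (1 / 3 : k) * (2 * e0 - r * e1)
  exact mul_ne_zero hL (mul_ne_zero (pow_ne_zero _ hr) (sub_ne_zero.2 hst)) h1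

lemma pb_taylor (r a c : k) (j p : ℕ) (h : k[X]) :
    taylor r (C a * X ^ j * (h.comp (C c * X)).comp (X ^ p)) =
      C a * (X + C r) ^ j * aeval (C c * (X + C r) ^ p) h := by
  simp only [taylor_apply, mul_comp, C_comp, pow_comp, X_comp, comp_assoc]
  rw [comp_eq_aeval]

/-- From the two-term form of `F` to that of `h`. -/
lemma pb_form {a a1 a2 : k} {e : ℕ} {h F : k[X]}
    (e1 : C a * X ^ 4 * h.comp (X ^ 3) = F * X ^ (3 * (e + 2)))
    (e2 : F = C a1 * X ^ 1 + C a2 * X ^ 4) :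
    C a * derivative h = C a1 * C ((e : k) + 1) * X ^ e + C a2 * C ((e : k) + 2) * X ^ (e + 1) := by
  have h1 : C a * h = C a1 * X ^ (e + 1) + C a2 * X ^ (e + 2) := by
    refine expand_injective (n := 3) (by norm_num) ?_
    simp only [expand_eq_comp_X_pow, mul_comp, add_comp, C_comp, pow_comp, X_comp]
    refine mul_left_cancel₀ (pow_ne_zero 4 (X_ne_zero (R := k))) ?_
    rw [e2] at e1
    linear_combination e1
  have h2 := congrArg derivative h1
  simp only [derivative_add, derivative_C_mul, derivative_X_pow] at h2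
  rw [h2]
  push_cast
  simp only [map_add, map_one, map_ofNat]
  ring

end aux

theorem polyB {k : Type*} [Field k] [CharZero k] {m p M : ℕ} {c r cI cJ : k} {I J : Tri k}
    (hp : 3 ≤ p) (hM : 1 ≤ M) (hc : c ≠ 0) (hr : r ≠ 0) (hcI : cI ≠ 0) (hcJ : cJ ≠ 0)
    (hI : I.g = C cI * X ^ ((p - 1) * M)) (hJ : J.g = C cJ * X ^ ((p - 1) * M))
    (H : Hold m I J (X ^ p : k[X]) (C c * (X + C r) ^ p) (derivative (X ^ p))
      (derivative (C c * (X + C r) ^ p))) : False := by
  obtain ⟨q, rfl⟩ : ∃ q, p = q + 3 := ⟨p - 3, by omega⟩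
  obtain ⟨e, he⟩ : ∃ e, (q + 3 - 1) * M = e + 2 := ⟨(q + 3 - 1) * M - 2, by
    have : 2 * 1 ≤ (q + 3 - 1) * M := Nat.mul_le_mul (by omega) hM
    omega⟩
  rw [he] at hI hJ
  have hz : derivative (X ^ (q + 3) : k[X]) = C ((q : k) + 3) * X ^ (q + 2) := by
    rw [derivative_X_pow]; push_cast; rfl
  have hw : derivative (C c * (X + C r) ^ (q + 3)) =
      C ((q : k) + 3) * (C c * (X + C r) ^ (q + 2)) := by
    rw [derivative_C_mul, derivative_X_add_C_pow]; push_cast; rw [mul_left_comm]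
  have hq : (C ((q : k) + 3) : k[X]) ≠ 0 :=
    C_ne_zero.2 (by exact_mod_cast Nat.succ_ne_zero (q + 2))
  rw [hz, hw] at H
  replace H := H.unscale hq
  have d1 : ∀ a : k, derivative (C a * X ^ (e + 2)) = C a * C ((e : k) + 2) * X ^ (e + 1) :=
    fun a => by rw [derivative_C_mul, derivative_X_pow]; push_cast; rw [mul_assoc]
  have d2 : ∀ a : k, derivative (C a * C ((e : k) + 2) * X ^ (e + 1)) =
      C a * C ((e : k) + 2) * C ((e : k) + 1) * X ^ e :=
    fun a => by rw [← C_mul, derivative_C_mul, derivative_X_pow]; push_cast; rw [mul_assoc]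
  obtain ⟨K, hK⟩ : ∃ K, K = cI * cJ * c ^ (e + 3) * ((e : k) + 2) := ⟨_, rfl⟩
  have hK0 : K ≠ 0 := hK ▸ mul_ne_zero (mul_ne_zero (mul_ne_zero hcI hcJ) (pow_ne_zero _ hc))
    (by exact_mod_cast Nat.succ_ne_zero (e + 1))
  have h2 := H.e2
  have h3 := H.e3
  simp only [Tri.a2, Tri.a4, hI, hJ, d1, d2, map_mul, map_pow, aeval_C, aeval_X,
    algebraMap_eq] at h2 h3
  obtain ⟨F, G, hF, hG, hFG⟩ := pb_split hr (e := (q + 3) * (e + 2))
    (f := C (cJ * c ^ (e + 2)) * X ^ (2 * q + 4) * I.h.comp (X ^ (q + 3)))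
    (g := C (c ^ 2 * cI) * X ^ (2 * q + 4) * (J.h.comp (C c * X)).comp (X ^ (q + 3)))
    (R := C K * X ^ (q + 1) * (X + C r) ^ (q + 1) * (C r * (2 * X + C r))) (by
      rw [pb_taylor, comp_eq_aeval, hK]
      obtain ⟨V, hV⟩ : ∃ V : k[X], V = X + C r := ⟨_, rfl⟩
      rw [← hV] at h2 ⊢
      rw [show C r = V - X by rw [hV]; ring]
      simp only [map_mul, map_pow]
      linear_combination h2)
  have sF := pb_sp (s := 2) (by omega) ⟨2, by ring⟩ hF
  have sG := pb_sp (s := 2) (by omega) ⟨2, by ring⟩ hG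
  obtain ⟨dF, dG⟩ := pb_top (N := 2 * q + 4) (by omega) hr sF sG hFG (fun n hn => by
    refine coeff_eq_zero_of_natDegree_lt (lt_of_le_of_lt (b := 2 * q + 3) ?_ (by omega))
    have t1 : (X + C r : k[X]).natDegree ≤ 1 := (natDegree_X_add_C r).le
    have t2 : ((X + C r : k[X]) ^ (q + 1)).natDegree ≤ (q + 1) * 1 := natDegree_pow_le_of_le _ t1
    have t3 : (C r * (2 * X + C r) : k[X]).natDegree ≤ 1 := by compute_degree
    have t4 : (C K * X ^ (q + 1) : k[X]).natDegree ≤ q + 1 := natDegree_C_mul_X_pow_le _ _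
    refine natDegree_mul_le.trans ((add_le_add (natDegree_mul_le.trans (add_le_add t4 t2)) t3).trans ?_)
    omega)
  have fF := pb_two sF dF
  have fG := pb_two sG dG
  generalize F.coeff (q + 1) = a1, F.coeff (2 * q + 4) = a2 at fF
  generalize G.coeff (q + 1) = b1, G.coeff (2 * q + 4) = b2 at fG
  have hFG' := hFG
  rw [fF, fG] at hFG'
  simp only [taylor_apply, add_comp, mul_comp, C_comp, pow_comp, X_comp] at hFG'
  rcases q with _ | q
  swap
  · exact pb_big (q := q) hr hK0 hFG'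
  obtain ⟨k1, k2, k3, k4⟩ := pb_three hr hFG'
  have gI := congrArg (aeval (X ^ 3 : k[X])) (pb_form hF fF)
  have gJ := congrArg (aeval ((X + C r) ^ 3 : k[X])) (pb_form hG fG)
  rw [derivative_comp] at gJ
  simp only [map_mul, map_add, map_pow, aeval_C, aeval_X, algebraMap_eq, derivative_C_mul,
    derivative_X, mul_one, aeval_comp] at gI gJ
  obtain ⟨F3, G3, hF3, hG3, hFG3⟩ := pb_split hr (e := 3 * (e + 2))
    (f := C (cJ * c ^ (e + 2)) * X ^ 8 * I.l.comp (X ^ 3))
    (g := C (c ^ 4 * cI) * X ^ 8 * (J.l.comp (C c * X)).comp (X ^ 3))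
    (R := C (c * K * r) * ((X * (X + C r)) ^ 2 * (2 * X + C r) *
      (C (-(e : k)) * (X * (X + C r)) + C (-2 * ((e : k) + 1)) * C r ^ 2))) (by
      rw [pb_taylor, comp_eq_aeval]
      have K1 := congrArg (C : k → k[X]) k1
      have K2 := congrArg (C : k → k[X]) k2
      have K3 := congrArg (C : k → k[X]) k3
      have K4 := congrArg (C : k → k[X]) k4
      subst hK
      simp only [zero_add, map_mul, map_add, map_pow, map_neg, map_ofNat, map_one]
        at h3 gI gJ K1 K2 K3 K4 ⊢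
      obtain ⟨V, hV⟩ : ∃ V : k[X], V = X + C r := ⟨_, rfl⟩
      rw [← hV] at h3 gJ ⊢
      rw [show C r = V - X by rw [hV]; ring] at K1 K3 ⊢
      linear_combination h3 + 2 * C c * V ^ 3 * X ^ 8 * V ^ (3 * e + 6) * gI -
        2 * C c * X ^ 3 * V ^ 8 * X ^ (3 * e + 6) * gJ +
        C c * V ^ 3 * X ^ 8 * V ^ (3 * e + 6) *
          ((C (e : k) + 1) * X ^ (3 * e) * K1 + (C (e : k) + 2) * X ^ (3 * e + 3) * K2) -
        C c * X ^ 3 * V ^ 8 * X ^ (3 * e + 6) *
          ((C (e : k) + 1) * V ^ (3 * e) * K3 + (C (e : k) + 2) * V ^ (3 * e + 3) * K4))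
  refine pb_last (L := c * K * r) (s := -(e : k)) (t := -2 * ((e : k) + 1)) hr
    (mul_ne_zero (mul_ne_zero hc hK0) hr) (fun h => ?_)
    (pb_sp (s := 1) (by norm_num) (by norm_num) hF3) (pb_sp (s := 1) (by norm_num) (by norm_num) hG3)
    ?_
  · have : (2 : k) = 0 := by linear_combination -h
    exact two_ne_zero this
  · rw [hFG3]
    simp only [map_mul, map_add, map_pow, map_neg, map_ofNat, map_one]
    ring

end Ivrii.TA
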