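import Pool.Agent.P.MP_7a8567_an.TA.LocS
import Pool.Agent.P.MP_7a8567_an.TA.Place
import Pool.Agent.P.MP_7a8567_an.TA.PolyA
import Pool.Agent.P.MP_7a8567_an.TA.PolyB

/-! The main case of Theorem A: the curve has a polynomial parametrisation. -/

open Polynomial Ivrii.PX IntermediateField

noncomputable section

namespace Ivrii.TA

variable {k K : Type*} [Field k] [Field K] [Algebra k K]

lemma Small.flt {m : ℕ} {f g : k[X]} (S : Small m f g) (c : k) : f.rootMultiplicity c < m := by
  by_cases h : c = 0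
  · exact h ▸ S.lt
  · have := S.fa c h
    omega

lemma Small.glt {m : ℕ} {f g : k[X]} (S : Small m f g) (c : k) : g.rootMultiplicity c < m := by
  by_cases h : c = 0
  · exact h ▸ S.eq ▸ S.lt
  · have := S.ga c h
    omega

lemma rootMultiplicity_taylor (c : k) (f : k[X]) :
    (taylor c f).rootMultiplicity 0 = f.rootMultiplicity c :=
  rootMultiplicity_eq_rootMultiplicity.symm

lemma ram_fin (e : ℕ+) (c : k) : ram e (algebraMap k (LaurentSeries k) c + HahnSeries.single 1 1) =
    algebraMap k _ c + HahnSeries.single ((e : ℕ) : ℤ) 1 := by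
  rw [map_add, ram_single, mul_one]
  exact congrArg (· + _) (ram_C e c)

lemma Ge.of_ram {e : ℕ+} {g : LaurentSeries k} (h : Ge 0 (ram e g)) : Ge 0 g := fun i hi => by
  rw [← coeff_ram_mul e]
  exact h _ (mul_neg_of_pos_of_neg (by exact_mod_cast e.pos) hi)

lemma Ge.ram {g : LaurentSeries k} (h : Ge 0 g) (e : ℕ+) : Ge 0 (ram e g) := by
  simpa using (h.lead.ram e).1

lemma Ge.dU {g : LaurentSeries k} (h : Ge 0 g) : Ge 0 (dU k k g) := fun i hi => by
  rw [coeff_dU]
  rcases (Int.add_one_le_iff.2 hi).lt_or_eq with h1 | h1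
  · rw [h _ h1, mul_zero]
  · rw [h1, Int.cast_zero, zero_mul]

lemma coeff_aeval_u (W : k[X]) (j : ℕ) :
    (aeval (HahnSeries.single 1 1 : LaurentSeries k) W).coeff j = W.coeff j := by
  induction W using Polynomial.induction_on' with
  | add p q hp hq => simp [hp, hq]
  | monomial n a =>
    rw [aeval_monomial, coeff_const_mul, HahnSeries.single_pow, coeff_monomial]
    by_cases h : n = j
    · simp [h]
    · simp [h, Ne.symm h]

lemma exists_poly {y : LaurentSeries k} (h : Ge 0 y) {B : ℕ} (hB : ∀ j : ℤ, B < j → y.coeff j = 0) :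
    ∃ W : k[X], aeval (HahnSeries.single 1 1 : LaurentSeries k) W = y := by
  refine ⟨∑ j ∈ Finset.range (B + 1), monomial j (y.coeff j), ?_⟩
  ext i
  rcases lt_or_ge i 0 with hi | hi
  · rw [h i hi]
    exact (lead_aeval0 (Lead.single 1 (1 : k)).1 _).1 i hi
  · obtain ⟨i, rfl⟩ := Int.eq_ofNat_of_zero_le hi
    rw [coeff_aeval_u, finset_sum_coeff]
    simp only [coeff_monomial, Finset.sum_ite_eq', Finset.mem_range]
    split_ifs with h1
    · rfl
    · exact (hB i (by omega)).symm

variable [IsAlgClosed k] [CharZero k] {m : ℕ} {I J : Tri k}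

/-- The local lemma at a place over a finite point. -/
lemma loc (S : Small m I.g J.g) {c : k} {e : ℕ+} {x y : LaurentSeries k}
    (hx : x = ram e (algebraMap k _ c + HahnSeries.single 1 1)) (hy : euler k k y ≠ 0)
    (H : Hold m I J x y (euler k k x) (euler k k y)) :
    Ge 0 y ∧ ∃ n : ℕ+, y.coeff (n : ℕ) ≠ 0 ∧ ((e : ℕ) ∣ n ∨ ((n : ℕ) ∣ e ∧ c = 0)) ∧
      ∀ g : ℕ+, (g : ℕ) ∣ e → (g : ℕ) ∣ n → ∃ y0, ram g y0 = y := by
  have he : (0 : ℤ) < (e : ℕ) := by exact_mod_cast e.pos
  have hx0 : x - algebraMap k _ c = HahnSeries.single ((e : ℕ) : ℤ) 1 := by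
    rw [hx, ram_fin, add_sub_cancel_left]
  have lx : Lead (e : ℕ) 1 (x - algebraMap k _ c) := hx0 ▸ Lead.single _ _
  have sh : ∀ (a : k) (v : LaurentSeries k), euler k k (v - algebraMap k _ a) = euler k k v :=
    fun a v => by simp
  have hf : taylor c I.g ≠ 0 := fun h => S.f0 ((taylor_eq_zero _ _).1 h)
  have lf : (taylor c I.g).rootMultiplicity 0 < m := rootMultiplicity_taylor c I.g ▸ S.flt c
  have h0 : Ge 0 y := no_pole lx he one_ne_zero hf S.g0 lf S.deg
    (by rw [sh, Tri.aeval_taylor]; exact H.e1)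
  set d := y.coeff 0 with hd
  have h1 : Ge 1 (y - algebraMap k _ d) :=
    ((h0.lead.sub (Lead.const d)).cast rfl (sub_self d)).ge_succ
  obtain ⟨n, b, hb, ly⟩ := exists_lead (f := y - algebraMap k _ d)
    (fun h => hy (by rw [← sh d, h, map_zero]))
  have hn : 0 < n := ly.le_of_ge hb h1
  have hg : taylor d J.g ≠ 0 := fun h => S.g0 ((taylor_eq_zero _ _).1 h)
  have lg : (taylor d J.g).rootMultiplicity 0 < m := rootMultiplicity_taylor d J.g ▸ S.glt d
  have H' := H.shift c d
  rw [← sh c x, ← sh d y] at H'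
  have ho := order_rel lx he one_ne_zero ly hn hb hf hg H'.e1
  have hs := dvd_or_dvd lx he one_ne_zero ly hn hb hf hg lf lg H'.e1 H'.e2
  obtain ⟨n, rfl⟩ := Int.eq_ofNat_of_zero_le hn.le
  have hn' : 0 < n := by exact_mod_cast hn
  refine ⟨h0, ⟨n, hn'⟩, ?_, ?_, fun g g1 g2 => ?_⟩
  · have := ly.2
    rw [HahnSeries.coeff_sub, show (algebraMap k (LaurentSeries k) d).coeff n = 0 from
      HahnSeries.coeff_single_of_ne hn.ne', sub_zero] at this
    exact fun h => hb (this.symm.trans h)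
  · rw [Int.natCast_dvd_natCast, Int.natCast_dvd_natCast] at hs
    rcases hs with hs | hs
    · exact Or.inl hs
    by_cases hc : c = 0
    · exact Or.inr ⟨hs, hc⟩
    obtain ⟨p, hp⟩ := hs
    have h2 := S.fa c hc
    rw [rootMultiplicity_taylor, hp] at ho
    push_cast at ho
    have h3 : (p : ℤ) * (m - (I.g.rootMultiplicity c : ℕ)) =
        m - ((taylor d J.g).rootMultiplicity 0 : ℕ) :=
      mul_left_cancel₀ hn.ne' (by linear_combination ho)
    have h4 : p ≠ 0 := by
      rintro rfl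
      exact e.ne_zero hp
    have h5 : p < 2 := by
      by_contra h5
      have h6 : (2 : ℤ) ≤ p := by omega
      have h7 : (0 : ℤ) ≤ m - (I.g.rootMultiplicity c : ℕ) := by omega
      have := mul_le_mul_of_nonneg_right h6 h7
      omega
    obtain rfl : p = 1 := by omega
    exact Or.inl ⟨1, by simpa using hp.symm⟩
  · obtain ⟨p, hp⟩ := g1
    have e1 : x - algebraMap k _ c = ram g (HahnSeries.single (p : ℤ) 1) := by
      rw [hx0, ram_single, hp, Nat.cast_mul]
    obtain ⟨γ, hγ, hG⟩ := lx.aeval he one_ne_zero hf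
    have e2 := H'.e1
    have e3 := hG.ne_zero hγ
    rw [e1] at e2 e3
    obtain ⟨y0, h2⟩ := mem_ram g e3 ly hn hb hg lg (Int.natCast_dvd_natCast.2 g2) e2
    refine ⟨y0 + algebraMap k _ d, ?_⟩
    rw [map_add, h2, show ram g (algebraMap k (LaurentSeries k) d) = algebraMap k _ d from
      ram_C g d, sub_add_cancel]

variable {z w : K} [FiniteDimensional k⟮z⟯ K] {D : Derivation k K K}

lemma hold_place (hD : D z = 1) (H : Hold m I J z w 1 (D w)) (ψ : K →ₐ[k] LaurentSeries k) :
    Hold m I J (ψ z) (ψ w) (euler k k (ψ z)) (euler k k (ψ w)) := by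
  have := (H.map ψ).scale (euler k k (ψ z))
  rwa [map_one, mul_one, ← euler_place hD] at this

omit [IsAlgClosed k] in
lemma euler_fin (e : ℕ+) (c : k) :
    euler k k (ram e (algebraMap k (LaurentSeries k) c + HahnSeries.single 1 1)) =
      ((e : ℕ) : LaurentSeries k) * HahnSeries.single ((e : ℕ) : ℤ) 1 := by
  rw [ram_fin, map_add, euler_single]
  simp

omit [IsAlgClosed k] in
lemma euler_fin_ne (e : ℕ+) (c : k) :
    euler k k (ram e (algebraMap k (LaurentSeries k) c + HahnSeries.single 1 1)) ≠ 0 := by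
  rw [euler_fin]
  exact mul_ne_zero (Nat.cast_ne_zero.2 e.ne_zero) ((Lead.single _ _).ne_zero one_ne_zero)

variable (z) in
/-- No pole over finite points and no ramification over nonzero points. -/
def Reg (f : K) : Prop := ∀ (c : k) (e : ℕ+) (ψ : K →ₐ[k] LaurentSeries k),
  ψ z = ram e (algebraMap k _ c + HahnSeries.single 1 1) →
    Ge 0 (ψ f) ∧ (c ≠ 0 → ∃ g, ram e g = ψ f)

lemma euler_zero (hD : D z = 1) {e : ℕ+} {ψ : K →ₐ[k] LaurentSeries k}
    (h : ψ z = ram e (algebraMap k _ 0 + HahnSeries.single 1 1)) (f : K) :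
    euler k k (ψ f) = (e : ℕ) * ψ (z * D f) := by
  rw [euler_place hD, map_mul, h, euler_fin, ram_fin, map_zero, zero_add, mul_assoc]

lemma Reg.step (hD : D z = 1) {f : K} (hf : Reg (k := k) z f) (a b : ℤ) :
    Reg (k := k) z (a * (z * D f) + b * f) := by
  intro c e ψ h
  obtain ⟨h1, h2⟩ := hf c e ψ h
  have key : Ge 0 (ψ (z * D f)) ∧ (c ≠ 0 → ∃ g, ram e g = ψ (z * D f)) := by
    by_cases hc : c = 0
    · subst hc
      refine ⟨fun i hi => ?_, fun h => absurd rfl h⟩
      have := h1.euler i hi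
      rw [euler_zero hD h, coeff_natCast_mul] at this
      exact (mul_eq_zero.1 this).resolve_left (Nat.cast_ne_zero.2 e.ne_zero)
    obtain ⟨g, hg⟩ := h2 hc
    have h3 : ψ (D f) = ram e (dU k k g) := by
      refine mul_left_cancel₀ (euler_fin_ne e c) ?_
      rw [← h, ← euler_place hD, ← hg, euler_ram, euler_eq k g, map_mul, ram_single, mul_one, h,
        euler_fin, mul_assoc]
    rw [map_mul, h, h3, ← map_mul]
    refine ⟨Ge.ram ?_ e, fun _ => ⟨_, rfl⟩⟩
    simpa using ((Lead.const c).1.add ((Lead.single 1 (1 : k)).1.mono zero_le_one)).mul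
      (Ge.of_ram (hg ▸ h1)).dU
  rw [map_add, map_mul, map_mul ψ (b : K), map_intCast, map_intCast]
  refine ⟨Ge.add ?_ ?_, fun hc => ?_⟩
  · simpa using key.1.const_mul (a : k)
  · simpa using h1.const_mul (b : k)
  · obtain ⟨g1, e1⟩ := key.2 hc
    obtain ⟨g2, e2⟩ := h2 hc
    exact ⟨a * g1 + b * g2, by rw [map_add, map_mul, map_mul, map_intCast, map_intCast, e1, e2]⟩

/-- The expansion of `w` over `z = 0` is finite. -/
lemma finite_exp (hD : D z = 1) (hw : Reg (k := k) z w) {e : ℕ+} {ψ : K →ₐ[k] LaurentSeries k}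
    (h : ψ z = ram e (algebraMap k _ 0 + HahnSeries.single 1 1)) :
    ∃ B : ℕ, ∀ j : ℤ, B < j → (ψ w).coeff j = 0 := by
  obtain ⟨n, h1, h2⟩ := places_inf (transc_of_der (D := D) (z := z) (by simp [hD]))
  obtain ⟨M, hM⟩ := h1 w
  let f : ℕ → K := fun i => Nat.rec w
    (fun i f => ((n : ℕ) : ℤ) * (z * D f) + ((i - M : ℤ) : K) * f) i
  have fs : ∀ i, f (i + 1) = ((n : ℕ) : ℤ) * (z * D (f i)) + ((i - M : ℤ) : K) * f i := fun _ => rfl
  have r : ∀ i, Reg (k := k) z (f i) := fun i => by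
    induction i with
    | zero => exact hw
    | succ i ih => exact ih.step hD _ _
  have h0 : f (M + 1) = 0 := by
    refine h2 _ (fun c e ψ h => (r (M + 1) c e ψ h).1) fun ψ h => ?_
    have : ∀ i : ℕ, Ge (i - M) (ψ (f i)) := fun i => by
      induction i with
      | zero => exact (hM ψ h).mono (by omega)
      | succ i ih =>
        have e1 : ψ (f (i + 1)) = algebraMap k _ ((i - M : ℤ) : k) * ψ (f i) -
            euler k k (ψ (f i)) := by
          rw [fs, euler_place hD, h, ram_single, euler_single, ← ram_single, ← h]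
          simp only [map_add, map_mul, map_intCast]
          push_cast
          ring
        rw [e1]
        exact (((((Lead.const _).mul ih.lead).cast (zero_add _) rfl).sub ih.lead.euler).cast rfl
          (sub_self _)).ge_succ.mono (by push_cast; omega)
    simpa using this (M + 1)
  refine ⟨e * M, fun j hj => by_contra fun hne => ?_⟩
  have : ∀ i : ℕ, (ψ (f i)).coeff j ≠ 0 := fun i => by
    induction i with
    | zero => exact hne
    | succ i ih =>
      intro h3
      have e1 : (e : ℕ) * ψ (f (i + 1)) = (n : ℕ) * euler k k (ψ (f i)) +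
          (((e : ℕ) * (i - M) : ℤ) : LaurentSeries k) * ψ (f i) := by
        rw [fs, euler_zero hD h]
        simp only [map_add, map_mul, map_intCast]
        push_cast
        ring
      have e2 := congrArg (fun v : LaurentSeries k => v.coeff j) e1
      simp only [HahnSeries.coeff_add, coeff_natCast_mul, coeff_intCast_mul, h3, mul_zero,
        coeff_euler] at e2
      have e3 : (((n : ℕ) * j + (e : ℕ) * (i - M) : ℤ) : k) = 0 :=
        mul_right_cancel₀ ih (by push_cast at e2 ⊢; linear_combination -e2)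
      rw [Int.cast_eq_zero] at e3
      have h4 : (1 : ℤ) ≤ (n : ℕ) := by exact_mod_cast n.pos
      have h5 : (0 : ℤ) ≤ (e : ℕ) * (i : ℤ) := by positivity
      have h6 : (0 : ℤ) ≤ (e : ℕ) * (M : ℤ) := by positivity
      push_cast at hj
      nlinarith
  exact this (M + 1) (by rw [h0, map_zero]; rfl)

theorem conic_of_small (hD : D z = 1) (hw : D w ≠ 0) (S : Small m I.g J.g)
    (H : Hold m I J z w 1 (D w)) : Conic k z w := by
  have hne : ∀ (c : k) (e : ℕ+) (ψ : K →ₐ[k] LaurentSeries k),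
      ψ z = ram e (algebraMap k _ c + HahnSeries.single 1 1) → euler k k (ψ w) ≠ 0 :=
    fun c e ψ h => by
      rw [euler_place hD, h]
      exact mul_ne_zero (euler_fin_ne e c) ((_root_.map_ne_zero ψ).2 hw)
  have hreg : Reg (k := k) z w := fun c e ψ h => by
    obtain ⟨h1, n, -, h2, h3⟩ := loc S h (hne c e ψ h) (hold_place hD H ψ)
    exact ⟨h1, fun hc => h3 e dvd_rfl (h2.resolve_right fun h => hc h.2)⟩
  obtain ⟨e, ⟨ψ, h⟩, -⟩ := places (transc_of_der (D := D) (z := z) (by simp [hD]))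
    (transc_fin (0 : k))
  obtain ⟨B, hB⟩ := finite_exp hD hreg h
  obtain ⟨h1, n, h2, h3, h4⟩ := loc S h (hne 0 e ψ h) (hold_place hD H ψ)
  obtain ⟨g, p, hp, y, hy, hc⟩ : ∃ (g : ℕ+) (p : ℕ), (e : ℕ) = g * p ∧ ∃ y, ram g y = ψ w ∧
      (p = 1 ∨ y.coeff 1 ≠ 0) := by
    rcases h3 with h3 | ⟨⟨p, hp⟩, -⟩
    · obtain ⟨y, hy⟩ := h4 e dvd_rfl h3
      exact ⟨e, 1, (mul_one _).symm, y, hy, Or.inl rfl⟩
    · obtain ⟨y, hy⟩ := h4 n ⟨p, hp⟩ dvd_rfl
      exact ⟨n, p, hp, y, hy, Or.inr (by rwa [← coeff_ram_mul n, mul_one, hy])⟩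
  have hg : (1 : ℤ) ≤ (g : ℕ) := by exact_mod_cast g.pos
  obtain ⟨W, rfl⟩ := exists_poly (Ge.of_ram (hy ▸ h1)) (B := B) fun j hj => by
    rw [← coeff_ram_mul g, hy]
    exact hB _ (by nlinarith)
  set u : LaurentSeries k := HahnSeries.single 1 1 with hu
  have hz : ψ z = ram g (aeval u (X ^ p : k[X])) := by
    rw [h, ram_fin, map_zero, zero_add, aeval_X_pow, hu, HahnSeries.single_pow, ram_single, hp]
    simp
  have hu0 : u ≠ 0 := (Lead.single _ _).ne_zero one_ne_zero
  have hθ : ∀ V : k[X], euler k k (ram g (aeval u V)) =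
      ((g : ℕ) * ram g u) * ram g (aeval u (derivative V)) := fun V => by
    rw [euler_ram, Derivation.map_aeval, hu, euler_single, smul_eq_mul, map_mul]
    simp only [Int.cast_one, one_mul]
    ring
  have hinj : Function.Injective ((ramA g).comp (aeval u : k[X] →ₐ[k] LaurentSeries k)) :=
    (ram_injective g).comp (transcendental_iff_injective.1 (by simpa using transc_fin (0 : k)))
  have H1 := hold_place hD H ψ
  have h5 := hne 0 e ψ h
  rw [← hy, hθ] at h5
  rw [hz, ← hy, hθ, hθ] at H1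
  have H2 : Hold m I J (X ^ p : k[X]) W (derivative (X ^ p)) (derivative W) :=
    Hold.of_map _ hinj (H1.unscale (left_ne_zero_of_mul h5))
  have hp1 : 1 ≤ p := Nat.pos_of_ne_zero fun h0 => e.ne_zero (by rw [hp, h0, mul_zero])
  rcases polyA S hp1 (fun h0 => h5 (by simp [h0]))
    (hc.imp id fun hc => by rwa [← coeff_aeval_u]) H2.e1 with
    h6 | ⟨M, c, r, cI, cJ, a1, a2, a3, a4, a5, a6, rfl, a7, a8⟩
  · refine Conic.of_map ψ ψ.injective ?_
    rw [hz, ← hy]
    exact h6.map ((ramA g).comp (aeval u))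
  · exact (polyB a1 a2 a3 a4 a5 a6 a7 a8 H2).elim

end Ivrii.TA
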