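import Pool.Agent.P.MP_7a8567_an.LS

/-! Leading terms of Laurent series. -/

open Polynomial Ivrii.PX

noncomputable section

namespace Ivrii.TA

variable {k : Type*} [Field k]

/-- The series has order at least `n`. -/
def Ge (n : ℤ) (f : LaurentSeries k) : Prop := ∀ i < n, f.coeff i = 0

/-- The series is `c u ^ n` up to terms of higher order. -/
def Lead (n : ℤ) (c : k) (f : LaurentSeries k) : Prop := Ge n f ∧ f.coeff n = c

variable {n n' : ℤ} {c c' : k} {f g : LaurentSeries k}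

namespace Ge

lemma mono (h : Ge n f) (hn : n' ≤ n) : Ge n' f := fun i hi => h i (hi.trans_le hn)

lemma zero (n : ℤ) : Ge n (0 : LaurentSeries k) := fun _ _ => rfl

lemma add (h : Ge n f) (h' : Ge n g) : Ge n (f + g) := fun i hi => by simp [h i hi, h' i hi]

lemma sub (h : Ge n f) (h' : Ge n g) : Ge n (f - g) := fun i hi => by simp [h i hi, h' i hi]

lemma neg (h : Ge n f) : Ge n (-f) := fun i hi => by simp [h i hi]

lemma sum {ι : Type*} {s : Finset ι} {F : ι → LaurentSeries k} (h : ∀ i ∈ s, Ge n (F i)) :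
    Ge n (∑ i ∈ s, F i) :=
  Finset.sum_induction F (Ge n) (fun _ _ => add) (zero n) h

lemma lead (h : Ge n f) : Lead n (f.coeff n) f := ⟨h, rfl⟩

lemma lead0 (h : Ge (n + 1) f) : Lead n 0 f := ⟨h.mono (by omega), h n (by omega)⟩

lemma eq_zero (h : ∀ n, Ge n f) : f = 0 := by
  ext i
  exact h (i + 1) i (by omega)

end Ge

lemma exists_ge (f : LaurentSeries k) : ∃ n, Ge n f :=
  ⟨f.order, fun _ hi => HahnSeries.coeff_eq_zero_of_lt_order hi⟩

lemma exists_lead (hf : f ≠ 0) : ∃ n c, c ≠ 0 ∧ Lead n c f :=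
  ⟨f.order, _, HahnSeries.coeff_order_eq_zero.not.2 hf,
    fun _ hi => HahnSeries.coeff_eq_zero_of_lt_order hi, rfl⟩

namespace Lead

lemma ge_succ (h : Lead n 0 f) : Ge (n + 1) f := fun i hi => by
  rcases (Int.lt_add_one_iff.1 hi).lt_or_eq with h1 | rfl
  · exact h.1 i h1
  · exact h.2

lemma cast (h : Lead n c f) (h1 : n = n') (h2 : c = c') : Lead n' c' f := h1 ▸ h2 ▸ h

lemma add (h : Lead n c f) (h' : Lead n c' g) : Lead n (c + c') (f + g) :=
  ⟨h.1.add h'.1, by simp [h.2, h'.2]⟩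

lemma sub (h : Lead n c f) (h' : Lead n c' g) : Lead n (c - c') (f - g) :=
  ⟨h.1.sub h'.1, by simp [h.2, h'.2]⟩

lemma neg (h : Lead n c f) : Lead n (-c) (-f) := ⟨h.1.neg, by simp [h.2]⟩

lemma eq (h : Lead n c f) (h' : Lead n c' f) : c = c' := h.2.symm.trans h'.2

lemma ne_zero (h : Lead n c f) (hc : c ≠ 0) : f ≠ 0 := by
  rintro rfl
  exact hc h.2.symm

lemma le_of_ge (h : Lead n c f) (hc : c ≠ 0) (h' : Ge n' f) : n' ≤ n := by
  by_contra hn
  exact hc (h.2.symm.trans (h' n (not_le.1 hn)))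

lemma uniq (h : Lead n c f) (hc : c ≠ 0) (h' : Lead n' c' f) (hc' : c' ≠ 0) : n = n' :=
  le_antisymm (h'.le_of_ge hc' h.1) (h.le_of_ge hc h'.1)

lemma mul (h : Lead n c f) (h' : Lead n' c' g) : Lead (n + n') (c * c') (f * g) := by
  have key : ∀ a, ∀ ij ∈ Finset.antidiagonal f.isPWO_support g.isPWO_support a,
      n ≤ ij.1 ∧ n' ≤ ij.2 ∧ ij.1 + ij.2 = a := fun a ij hij => by
    obtain ⟨h1, h2, h3⟩ := Finset.mem_antidiagonal.1 hij
    exact ⟨not_lt.1 fun hl => h1 (h.1 _ hl), not_lt.1 fun hl => h2 (h'.1 _ hl), h3⟩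
  refine ⟨fun i hi => ?_, ?_⟩
  · rw [HahnSeries.coeff_mul]
    refine Finset.sum_eq_zero fun ij hij => ?_
    have := key i ij hij
    omega
  · rw [HahnSeries.coeff_mul, Finset.sum_eq_single (n, n'), h.2, h'.2]
    · intro ij hij hne
      have := key _ ij hij
      exact absurd (Prod.ext (by simp only; omega) (by simp only; omega)) hne
    · intro hn
      by_contra h0
      exact hn (Finset.mem_antidiagonal.2 ⟨left_ne_zero_of_mul h0, right_ne_zero_of_mul h0, rfl⟩)

lemma single (n : ℤ) (c : k) : Lead n c (HahnSeries.single n c) :=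
  ⟨fun i hi => by simp [hi.ne], by simp⟩

lemma const (c : k) : Lead 0 c (algebraMap k (LaurentSeries k) c) := single 0 c

lemma one : Lead 0 (1 : k) 1 := by simpa using const (1 : k)

lemma natCast (m : ℕ) : Lead 0 (m : k) (m : LaurentSeries k) := by simpa using const (m : k)

lemma pow (h : Lead n c f) (m : ℕ) : Lead (n * m) (c ^ m) (f ^ m) := by
  induction m with
  | zero => simpa using one
  | succ m ih => exact pow_succ f m ▸ (ih.mul h).cast (by push_cast; ring) (pow_succ c m).symm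

lemma inv (h : Lead n c f) (hc : c ≠ 0) : Lead (-n) c⁻¹ f⁻¹ := by
  obtain ⟨n', c', hc', h'⟩ := exists_lead (inv_ne_zero (h.ne_zero hc))
  have h1 := h.mul h'
  rw [mul_inv_cancel₀ (h.ne_zero hc)] at h1
  have e := h1.uniq (mul_ne_zero hc hc') one one_ne_zero
  rw [e] at h1
  exact h'.cast (by omega) (eq_inv_of_mul_eq_one_right (h1.eq one))

lemma div (h : Lead n c f) (h' : Lead n' c' g) (hc : c' ≠ 0) : Lead (n - n') (c / c') (f / g) := by
  simpa only [div_eq_mul_inv, sub_eq_add_neg] using h.mul (h'.inv hc)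

lemma euler (h : Lead n c f) : Lead n (n * c) (euler k k f) :=
  ⟨fun i hi => by simp [h.1 i hi], by simp [h.2]⟩

lemma ram (h : Lead n c f) (e : ℕ+) : Lead ((e : ℕ) * n) c (ram e f) := by
  refine ⟨fun i hi => ?_, by rw [coeff_ram_mul, h.2]⟩
  by_cases hd : ((e : ℕ) : ℤ) ∣ i
  · obtain ⟨j, rfl⟩ := hd
    rw [coeff_ram_mul]
    exact h.1 j (lt_of_mul_lt_mul_left hi (by positivity))
  · exact coeff_ram_of_not_dvd _ _ hd

lemma rot (h : Lead n c f) (ζ : kˣ) : Lead n ((ζ ^ n : kˣ) * c) (rot ζ f) :=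
  ⟨fun i hi => by simp [h.1 i hi], by simp [h.2]⟩

end Lead

lemma Ge.mul (h : Ge n f) (h' : Ge n' g) : Ge (n + n') (f * g) := (h.lead.mul h'.lead).1

lemma Ge.euler (h : Ge n f) : Ge n (euler k k f) := h.lead.euler.1

lemma Ge.const_mul (h : Ge n f) (c : k) : Ge n (algebraMap k _ c * f) := by
  simpa using (Lead.const c).1.mul h

lemma coeff_const_mul (c : k) (f : LaurentSeries k) (i : ℤ) :
    (algebraMap k (LaurentSeries k) c * f).coeff i = c * f.coeff i := by
  rw [← Algebra.smul_def]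
  rfl

lemma coeff_intCast_mul (N : ℤ) (f : LaurentSeries k) (i : ℤ) :
    (N * f).coeff i = N * f.coeff i := by
  rw [← coeff_const_mul, map_intCast]

lemma coeff_natCast_mul (N : ℕ) (f : LaurentSeries k) (i : ℤ) :
    (N * f).coeff i = N * f.coeff i := by
  rw [← coeff_const_mul, map_natCast]

lemma euler_single (N : ℤ) (c : k) :
    euler k k (HahnSeries.single N c) = N * HahnSeries.single N c := by
  ext i
  rw [coeff_intCast_mul]
  by_cases hi : i = N <;> simp [hi]

/-- Value of a polynomial at a series without constant term. -/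
lemma lead_aeval0 (h : Ge 1 f) (p : k[X]) : Lead 0 (p.coeff 0) (aeval f p) := by
  induction p using Polynomial.induction_on with
  | C a => simpa using Lead.const a
  | add p q hp hq => simpa using hp.add hq
  | monomial m a _ =>
    have h1 : Ge 1 (algebraMap k _ a * f ^ m * f) := by
      simpa using ((h.mono zero_le_one).lead.pow m).1.const_mul a |>.mul h
    simpa [pow_succ, ← mul_assoc] using Ge.lead0 (n := 0) (by simpa using h1)

lemma exists_X_pow_mul {p : k[X]} (hp : p ≠ 0) :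
    ∃ q : k[X], p = X ^ p.rootMultiplicity 0 * q ∧ q.coeff 0 ≠ 0 := by
  obtain ⟨q, h1, h2⟩ := exists_eq_pow_rootMultiplicity_mul_and_not_dvd p hp 0
  rw [C_0, sub_zero] at h1 h2
  exact ⟨q, h1, fun h => h2 (X_dvd_iff.2 h)⟩

lemma Lead.aeval (h : Lead n c f) (hn : 0 < n) (hc : c ≠ 0) {p : k[X]} (hp : p ≠ 0) :
    ∃ a, a ≠ 0 ∧ Lead (n * (p.rootMultiplicity 0 : ℕ)) a (aeval f p) := by
  obtain ⟨q, h1, h2⟩ := exists_X_pow_mul hp
  refine ⟨c ^ p.rootMultiplicity 0 * q.coeff 0, mul_ne_zero (pow_ne_zero _ hc) h2, ?_⟩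
  have := (h.pow (p.rootMultiplicity 0)).mul (lead_aeval0 (h.1.mono hn) q)
  rw [add_zero] at this
  conv_rhs => rw [h1]
  simpa using this

/-- Value of a polynomial at a series with a pole. -/
lemma Lead.aeval_neg (h : Lead n c f) (hn : n < 0) (p : k[X]) :
    Lead (n * (p.natDegree : ℕ)) (p.leadingCoeff * c ^ p.natDegree) (Polynomial.aeval f p) := by
  rw [aeval_eq_sum_range, Finset.sum_range_succ]
  have h1 : Ge (n * (p.natDegree : ℕ) + 1) (∑ i ∈ Finset.range p.natDegree, p.coeff i • f ^ i) :=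
    Ge.sum fun i hi => by
      rw [Algebra.smul_def]
      have : (i : ℤ) < (p.natDegree : ℕ) := by exact_mod_cast Finset.mem_range.1 hi
      exact ((h.pow i).1.const_mul _).mono (by nlinarith)
  have h2 := (Lead.const (p.coeff p.natDegree)).mul (h.pow p.natDegree)
  rw [zero_add, ← Algebra.smul_def] at h2
  simpa using h1.lead0.add h2

end Ivrii.TA
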