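import Pool.Agent.P.MP_7a8567_an.TA.LocU

/-! Local analysis of identities (1), (2): one ramification index divides the other. -/

open Polynomial Ivrii.PX

noncomputable section

namespace Ivrii.TA

variable {k : Type*} [Field k]

/-- The series is a limit of rational functions of `x`. -/
def App (x f : LaurentSeries k) : Prop := ∀ n, ∃ r ∈ IntermediateField.adjoin k {x}, Ge n (f - r)

variable {n E N : ℤ} {a b c : k} {x y f g A : LaurentSeries k} {m : ℕ}

lemma exists_deriv_mem (hf : f ∈ IntermediateField.adjoin k {x}) :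
    ∃ f' ∈ IntermediateField.adjoin k {x}, (euler k k) f = f' * (euler k k) x := by
  induction hf using IntermediateField.adjoin_induction with
  | mem y hy => exact ⟨1, one_mem _, by rw [Set.mem_singleton_iff.1 hy, one_mul]⟩
  | algebraMap c => exact ⟨0, zero_mem _, by simp⟩
  | add y z _ _ h1 h2 =>
    obtain ⟨y', m1, e1⟩ := h1
    obtain ⟨z', m2, e2⟩ := h2
    exact ⟨y' + z', add_mem m1 m2, by rw [map_add, e1, e2, add_mul]⟩
  | inv y hy h1 =>
    obtain ⟨y', m1, e1⟩ := h1
    refine ⟨-y⁻¹ ^ 2 * y', mul_mem (neg_mem (pow_mem (inv_mem hy) 2)) m1, ?_⟩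
    rw [Derivation.leibniz_inv, e1, smul_eq_mul, mul_assoc]
  | mul y z hy hz h1 h2 =>
    obtain ⟨y', m1, e1⟩ := h1
    obtain ⟨z', m2, e2⟩ := h2
    refine ⟨y * z' + z * y', add_mem (mul_mem hy m2) (mul_mem hz m1), ?_⟩
    rw [Derivation.leibniz, e1, e2, smul_eq_mul, smul_eq_mul]
    ring

lemma aeval_mem (x : LaurentSeries k) (p : k[X]) : aeval x p ∈ IntermediateField.adjoin k {x} :=
  IntermediateField.algebra_adjoin_le_adjoin k _ (Polynomial.aeval_mem_adjoin_singleton k x)

lemma dvd_of_mem (hx : Lead E a x) (hE : 0 < E) (ha : a ≠ 0)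
    (hf : f ∈ IntermediateField.adjoin k {x}) (h : Lead n c f) (hc : c ≠ 0) : E ∣ n := by
  obtain ⟨r, s, rfl⟩ := (IntermediateField.mem_adjoin_simple_iff k (α := x) f).1 hf
  have h0 := h.ne_zero hc
  obtain ⟨c1, h1, H1⟩ := hx.aeval hE ha (p := r) (by rintro rfl; simp at h0)
  obtain ⟨c2, h2, H2⟩ := hx.aeval hE ha (p := s) (by rintro rfl; simp at h0)
  rw [h.uniq hc (H1.div H2 h2) (div_ne_zero h1 h2)]
  exact (dvd_mul_right _ _).sub (dvd_mul_right _ _)

namespace App

lemma of_mem (hf : f ∈ IntermediateField.adjoin k {x}) : App x f :=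
  fun n => ⟨f, hf, by simpa using Ge.zero n⟩

lemma sub (hf : App x f) (hg : App x g) : App x (f - g) := fun n => by
  obtain ⟨r, m1, h1⟩ := hf n
  obtain ⟨s, m2, h2⟩ := hg n
  exact ⟨r - s, sub_mem m1 m2, by simpa only [sub_sub_sub_comm] using h1.sub h2⟩

lemma mul (hf : App x f) (hg : App x g) : App x (f * g) := fun n => by
  obtain ⟨i, hi⟩ := exists_ge g
  obtain ⟨r, m1, h1⟩ := hf (n - i)
  obtain ⟨j, hj⟩ := exists_ge r
  obtain ⟨s, m2, h2⟩ := hg (n - j)
  refine ⟨r * s, mul_mem m1 m2, ?_⟩
  rw [show f * g - r * s = (f - r) * g + r * (g - s) by ring]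
  exact ((h1.mul hi).mono (by omega)).add ((hj.mul h2).mono (by omega))

lemma delta (hA : Ge 0 A) (hα : App x (A * (euler k k) x)) (hf : App x f) : App x (A * (euler k k) f) := fun n => by
  obtain ⟨r, m1, h1⟩ := hf n
  obtain ⟨r', m2, e⟩ := exists_deriv_mem m1
  obtain ⟨s, m3, h2⟩ := ((of_mem m2).mul hα) n
  refine ⟨s, m3, ?_⟩
  rw [show A * (euler k k) f - s = A * (euler k k) (f - r) + (r' * (A * (euler k k) x) - s) by rw [map_sub, e]; ring]
  exact ((hA.mul h1.euler).mono (by omega)).add h2

lemma dvd (hx : Lead E a x) (hE : 0 < E) (ha : a ≠ 0) (hf : App x f) (h : Lead n c f)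
    (hc : c ≠ 0) : E ∣ n := by
  obtain ⟨r, m1, h1⟩ := hf (n + 1)
  refine dvd_of_mem hx hE ha m1 (c := c) ?_ hc
  simpa using h.sub h1.lead0

end App

lemma ode_of_factor {Ω G : LaurentSeries k} (hΩ : Ω ≠ 0) (hA : m * (euler k k) A * Ω + A * (euler k k) Ω = N * Ω)
    (h : Ω * G = (euler k k) x ^ m) : m * G * (euler k k) (A * (euler k k) x) - (euler k k) G * (A * (euler k k) x) = N * G * (euler k k) x := by
  have h1 := congrArg (euler k k) h
  rw [Derivation.leibniz, Derivation.leibniz_pow] at h1
  simp only [smul_eq_mul, nsmul_eq_mul] at h1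
  have h2 : (euler k k) x * (m * ((euler k k) x ^ (m - 1) * (euler k k) ((euler k k) x))) = m * (euler k k) x ^ m * (euler k k) ((euler k k) x) := by
    rcases m with _ | m
    · simp
    · simp only [Nat.add_sub_cancel, pow_succ]
      ring
  refine mul_left_cancel₀ hΩ ?_
  rw [Derivation.leibniz]
  simp only [smul_eq_mul]
  linear_combination G * (euler k k) x * hA - A * (euler k k) x * h1 - A * h2 + m * A * (euler k k) ((euler k k) x) * h

variable [CharZero k]

/-- A solution of the linear equation with coefficients in `k(x)` is a series in `x`. -/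
lemma app_of_ode {p : k[X]} {α : LaurentSeries k} (hx : Lead E a x) (hE : 0 < E) (ha : a ≠ 0) (hp : p ≠ 0)
    (hlt : p.rootMultiplicity 0 < m) (hα : Ge E α)
    (e : m * aeval x p * (euler k k) α - (euler k k) (aeval x p) * α = N * aeval x p * (euler k k) x) : App x α := by
  have key : ∀ j : ℕ, ∃ r ∈ IntermediateField.adjoin k {x}, Ge (E + j) (α - r) := by
    intro j
    induction j with
    | zero => exact ⟨0, zero_mem _, by simpa using hα⟩
    | succ j ih =>
      obtain ⟨r, m1, h1⟩ := ih
      have h2 := h1.lead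
      generalize (α - r).coeff (E + j) = c at h2
      by_cases hc : c = 0
      · subst hc
        exact ⟨r, m1, h2.ge_succ.mono (by push_cast; omega)⟩
      obtain ⟨γ, hγ, hG⟩ := hx.aeval hE ha hp
      have mG := aeval_mem x p
      generalize aeval x p = G at e hG mG
      obtain ⟨r', m2, e1⟩ := exists_deriv_mem m1
      obtain ⟨G', m3, e2⟩ := exists_deriv_mem mG
      have hθ := cast_mul_ne hE.ne' ha
      have h3 := (((((Lead.natCast m).mul hG).mul h2.euler).cast (by rw [zero_add]) rfl).sub
        (hG.euler.mul h2)).div hx.euler hθ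
      have e3 : (m * G * (euler k k) (α - r) - (euler k k) G * (α - r)) / (euler k k) x = N * G - m * G * r' + G' * r := by
        rw [div_eq_iff (hx.euler.ne_zero hθ), map_sub, e1]
        linear_combination e + r * e2
      rw [e3] at h3
      have hd := dvd_of_mem hx hE ha (add_mem (sub_mem (mul_mem (intCast_mem _ N) mG)
        (mul_mem (mul_mem (natCast_mem _ m) mG) m2)) (mul_mem m3 m1)) h3 (by
          refine div_ne_zero (fun h0 => ?_) hθ
          have h4 : ((m * (E + j) - E * (p.rootMultiplicity 0 : ℕ) : ℤ) : k) = 0 := by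
            refine mul_left_cancel₀ (mul_ne_zero hγ hc) ?_
            push_cast at h0 ⊢
            linear_combination h0
          have h5 : (m * (E + j) - E * (p.rootMultiplicity 0 : ℕ) : ℤ) = 0 := by exact_mod_cast h4
          have h6 : ((p.rootMultiplicity 0 : ℕ) : ℤ) < m := by exact_mod_cast hlt
          have h7 : (0 : ℤ) ≤ m * j := by positivity
          nlinarith)
      have hd2 : E ∣ (j : ℤ) := by
        have := hd.sub (dvd_mul_right E (p.rootMultiplicity 0 : ℕ))
        simpa only [show ∀ s : ℤ, s + (E + j) - E - s = j from fun s => by ring] using this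
      obtain ⟨i, hi⟩ := hd2
      obtain ⟨i, rfl⟩ := Int.eq_ofNat_of_zero_le (show 0 ≤ i from
        nonneg_of_mul_nonneg_right (hi ▸ Int.natCast_nonneg j) hE)
      have h4 := ((Lead.const (c / a ^ (i + 1))).mul (hx.pow (i + 1))).cast (n' := E + j)
        (by rw [hi]; push_cast; ring) (div_mul_cancel₀ c (pow_ne_zero _ ha))
      refine ⟨r + algebraMap k (LaurentSeries k) (c / a ^ (i + 1)) * x ^ (i + 1), add_mem m1 (mul_mem
        (IntermediateField.algebraMap_mem _ _)
        (pow_mem (IntermediateField.mem_adjoin_simple_self k x) _)), ?_⟩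
      rw [← sub_sub]
      exact ((h2.sub h4).cast rfl (sub_self c)).ge_succ.mono (by push_cast; omega)
  intro n
  obtain ⟨r, m1, h1⟩ := key n.toNat
  exact ⟨r, m1, h1.mono (by omega)⟩

/-- The normalising factor of the Euler field attached to the form `Ω`. -/
lemma exists_factor {Ω : LaurentSeries k} (hΩ : Lead N c Ω) (hN : 0 < N) (hc : c ≠ 0) (hm : 0 < m) :
    ∃ A, Lead 0 1 A ∧ m * (euler k k) A * Ω + A * (euler k k) Ω = N * Ω := by
  have hU := (hΩ.div (Lead.single N c) hc).cast (sub_self N) (div_self hc)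
  obtain ⟨U, hU'⟩ := exists_ofPowerSeries hU.1
  have hU0 : PowerSeries.constantCoeff U = 1 := by
    rw [← hU.2, ← hU', ← PowerSeries.coeff_zero_eq_constantCoeff_apply]
    exact (HahnSeries.ofPowerSeries_apply_coeff (Γ := ℤ) U 0).symm
  obtain ⟨y, hy0, hy⟩ := hensel (X ^ m - C U) (c := 1) (by simp [hU0])
    (by simp [derivative_X_pow, hm.ne'])
  set η : LaurentSeries k := HahnSeries.ofPowerSeries ℤ k y with hη
  have hη1 : Lead 0 1 η := ⟨fun i hi => by rw [hη, PowerSeries.coeff_coe, if_pos hi], by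
    rw [← hy0, ← PowerSeries.coeff_zero_eq_constantCoeff_apply]
    exact HahnSeries.ofPowerSeries_apply_coeff (Γ := ℤ) y 0⟩
  have hη0 := hη1.ne_zero one_ne_zero
  have hs := (Lead.single N c).ne_zero hc
  have e1 : Ω = HahnSeries.single N c * η ^ m := by
    rw [hη, ← map_pow, show y ^ m = U by simpa [sub_eq_zero] using hy, hU', mul_div_cancel₀ _ hs]
  have e2 := euler_single N c
  obtain ⟨m, rfl⟩ := Nat.exists_eq_succ_of_ne_zero hm.ne'
  set B : LaurentSeries k := cw (fun i => AddMonoidHom.mulLeft (((m + 1 : ℕ) * i + N : ℤ) : k)⁻¹) η with hB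
  have hB1 : Lead 0 (N : k)⁻¹ B := ⟨fun i hi => by simp [hB, hη1.1 i hi], by simp [hB, hη1.2]⟩
  have e3 : ((m + 1 : ℕ) : LaurentSeries k) * (euler k k) B + N * B = η := by
    ext i
    rw [HahnSeries.coeff_add, coeff_intCast_mul, coeff_natCast_mul]
    rcases lt_or_ge i 0 with hi | hi
    · simp [hB, hη1.1 i hi]
    · have h0 : (((m + 1 : ℕ) * i + N : ℤ) : k) ≠ 0 := Int.cast_ne_zero.2 (by positivity)
      simp only [coeff_euler, hB, coeff_cw, AddMonoidHom.coe_mulLeft]
      push_cast at h0 ⊢
      field_simp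
  have hN1 : Lead 0 (N : k) (N : LaurentSeries k) := by simpa using Lead.const (N : k)
  refine ⟨N * B / η, ((hN1.mul hB1).div hη1 one_ne_zero).cast (by simp)
    (by rw [mul_inv_cancel₀ (Int.cast_ne_zero.2 hN.ne'), div_one]), ?_⟩
  rw [Derivation.leibniz_div, e1, Derivation.leibniz, Derivation.leibniz, Derivation.leibniz_pow,
    e2, Derivation.map_intCast]
  simp only [smul_eq_mul, nsmul_eq_mul, Nat.succ_eq_add_one, Nat.add_sub_cancel, pow_succ]
  field_simp
  linear_combination (N * η) * e3

lemma no_cross (hA : Lead 0 1 A) (hα : App x (A * (euler k k) x)) (hβ : App y (A * (euler k k) y))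
    (hx : ∀ f c, App x f → Lead n c f → c = 0) (hy : ∀ f c, App y f → Lead n c f → c = 0)
    (hf : App x f) (hg : App y g) (h : Lead n c (f - g)) : c = 0 := by
  have step : ∀ (i j : ℤ) (c : k) (f : LaurentSeries k), Lead i c f →
      Lead i ((i - j) * c) (A * (euler k k) f - algebraMap k (LaurentSeries k) j * f) := fun i j c f h =>
    (((hA.mul h.euler).cast (zero_add i) rfl).sub
      (((Lead.const (j : k)).mul h).cast (zero_add i) rfl)).cast rfl (by ring)
  have key : ∀ (j : ℕ) (f g : LaurentSeries k) (c : k), App x f → App y g → Ge (n - j) f → Ge (n - j) g →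
      Lead n c (f - g) → c = 0 := by
    intro j
    induction j with
    | zero =>
      intro f g c hf hg h1 h2 h
      rw [Nat.cast_zero, sub_zero] at h1 h2
      rw [h.eq (h1.lead.sub h2.lead), hx f _ hf h1.lead, hy g _ hg h2.lead, sub_zero]
    | succ j ih =>
      intro f g c hf hg h1 h2 h
      set i : ℤ := n - (j + 1 : ℕ) with hi
      have h3 := ih _ _ ((n - i) * c)
        ((App.delta hA.1 hα hf).sub ((App.of_mem (IntermediateField.algebraMap_mem _ (i : k))).mul hf))
        ((App.delta hA.1 hβ hg).sub ((App.of_mem (IntermediateField.algebraMap_mem _ (i : k))).mul hg))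
        (((step i i _ f h1.lead).cast (n' := i) rfl (by rw [sub_self, zero_mul])).ge_succ.mono
          (by push_cast at hi; omega))
        (((step i i _ g h2.lead).cast (n' := i) rfl (by rw [sub_self, zero_mul])).ge_succ.mono
          (by push_cast at hi; omega))
        (by
          have := step n i c _ h
          rw [map_sub] at this
          convert this using 1
          ring)
      refine (mul_eq_zero.1 h3).resolve_left ?_
      rw [← Int.cast_sub, Int.cast_eq_zero]
      push_cast at hi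
      omega
  obtain ⟨i, hi⟩ := exists_ge f
  obtain ⟨j, hj⟩ := exists_ge g
  exact key (n - min i j).toNat f g c hf hg (hi.mono (by omega)) (hj.mono (by omega)) h

/-- One of the two ramification indices divides the other. -/
theorem dvd_or_dvd {p q p2 q2 : k[X]} (hx : Lead E a x) (hE : 0 < E) (ha : a ≠ 0)
    (hy : Lead n b y) (hn : 0 < n) (hb : b ≠ 0) (hp : p ≠ 0) (hq : q ≠ 0)
    (hlp : p.rootMultiplicity 0 < m) (hlq : q.rootMultiplicity 0 < m)
    (e1 : aeval x p * (euler k k) y ^ m = aeval y q * (euler k k) x ^ m)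
    (e2 : (euler k k) x ^ 2 * (aeval x p2 - y * aeval x (derivative p)) * aeval y q =
      (euler k k) y ^ 2 * (aeval y q2 - x * aeval y (derivative q)) * aeval x p) : E ∣ n ∨ n ∣ E := by
  by_contra hcon
  obtain ⟨h1, h2⟩ := not_or.1 hcon
  have ho := order_rel hx hE ha hy hn hb hp hq e1
  obtain ⟨γ, hγ, hG⟩ := hx.aeval hE ha hp
  obtain ⟨γ', hγ', hG'⟩ := hy.aeval hn hb hq
  have hlp' : ((p.rootMultiplicity 0 : ℕ) : ℤ) < m := by exact_mod_cast hlp
  have hθx := cast_mul_ne hE.ne' ha
  have hG0 := hG.ne_zero hγ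
  have hG0' := hG'.ne_zero hγ'
  have hΩ := (hx.euler.pow m).div hG hγ
  have hΩc := div_ne_zero (pow_ne_zero m hθx) hγ
  obtain ⟨A, hA, eA⟩ := exists_factor (m := m) hΩ (by nlinarith) hΩc (by omega)
  have hα := app_of_ode hx hE ha hp hlp (by simpa using hA.1.mul hx.euler.1)
    (ode_of_factor (hΩ.ne_zero hΩc) eA (div_mul_cancel₀ _ hG0))
  have hβ := app_of_ode hy hn hb hq hlq (by simpa using hA.1.mul hy.euler.1)
    (ode_of_factor (hΩ.ne_zero hΩc) eA (by
      rw [div_mul_eq_mul_div, div_eq_iff hG0]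
      linear_combination -e1))
  have d1 : (euler k k) (aeval x p) = aeval x (derivative p) * (euler k k) x := by
    rw [Derivation.map_aeval, smul_eq_mul]
  have d2 : (euler k k) (aeval y q) = aeval y (derivative q) * (euler k k) y := by
    rw [Derivation.map_aeval, smul_eq_mul]
  have L1 := (((hy.mul (hA.mul hx.euler)).mul hA).mul (hG.euler.div hG hγ)).cast
    (n' := E + n) (by ring) rfl
  have L2 := (((hx.mul (hA.mul hy.euler)).mul hA).mul (hG'.euler.div hG' hγ')).cast
    (n' := E + n) (by ring) rfl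
  have L3 := L1.sub L2
  have e3 : y * (A * (euler k k) x) * A * ((euler k k) (aeval x p) / aeval x p) -
      x * (A * (euler k k) y) * A * ((euler k k) (aeval y q) / aeval y q) =
      A * (euler k k) x * (A * (euler k k) x) * (aeval x p2 / aeval x p) -
        A * (euler k k) y * (A * (euler k k) y) * (aeval y q2 / aeval y q) := by
    rw [d1, d2]
    field_simp
    linear_combination -A ^ 2 * e2
  rw [e3] at L3
  have h0 := no_cross hA hα hβ
    (fun f c hf h => by_contra fun hc => h1 ((dvd_add_right dvd_rfl).1 (hf.dvd hx hE ha h hc)))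
    (fun f c hf h => by_contra fun hc => h2 ((dvd_add_left dvd_rfl).1 (hf.dvd hy hn hb h hc)))
    ((hα.mul hα).mul (App.of_mem (div_mem (aeval_mem x p2) (aeval_mem x p))))
    ((hβ.mul hβ).mul (App.of_mem (div_mem (aeval_mem y q2) (aeval_mem y q)))) L3
  have h3 : ((E * (E * (p.rootMultiplicity 0 : ℕ)) - n * (n * (q.rootMultiplicity 0 : ℕ)) : ℤ) : k)
      = 0 := by
    refine mul_left_cancel₀ (mul_ne_zero ha hb) ?_
    rw [mul_div_cancel_right₀ _ hγ, mul_div_cancel_right₀ _ hγ'] at h0
    push_cast at h0 ⊢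
    linear_combination h0
  rw [Int.cast_eq_zero] at h3
  have h4 : (E - n) * (E * (p.rootMultiplicity 0 : ℕ) + n * m) = 0 := by
    linear_combination h3 + n * ho
  rcases mul_eq_zero.1 h4 with h5 | h5
  · exact h1 (by rw [sub_eq_zero.1 h5])
  · have : (0 : ℤ) < m := by omega
    have : 0 < E * (p.rootMultiplicity 0 : ℕ) + n * m := by positivity
    omega

end Ivrii.TA
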