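import Pool.Agent.P.MP_7a8567_an.TA.Lead

/-! Local analysis of identity (1): orders and uniqueness. -/

open Polynomial Ivrii.PX

noncomputable section

namespace Ivrii.TA

variable {k : Type*} [Field k]

variable {n r E : ℤ} {a b c : k} {x y y' : LaurentSeries k} {f g : k[X]} {m : ℕ}

lemma lead_pow_sub (h : Lead n b y) (h' : Lead n b y') (hd : Lead r c (y' - y)) (j : ℕ) :
    Lead (n * j + r) (j * b ^ j * c) (y * (y' ^ j - y ^ j)) := by
  induction j with
  | zero => simpa using (Ge.zero (r + 1)).lead0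
  | succ j ih =>
    have e : y * (y' ^ (j + 1) - y ^ (j + 1)) =
        y' * (y * (y' ^ j - y ^ j)) + (y' - y) * y ^ (j + 1) := by ring
    rw [e]
    exact (((h'.mul ih).cast (by push_cast; ring) rfl).add
      ((hd.mul (h.pow (j + 1))).cast (add_comm _ _) rfl)).cast rfl (by push_cast; ring)

lemma ge_aeval_sub (h : Ge 1 y) (h' : Ge 1 y') (hd : Ge r (y' - y)) (q : k[X]) :
    Ge r (aeval y' q - aeval y q) := by
  induction q using Polynomial.induction_on with
  | C a => simpa using Ge.zero r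
  | add p q hp hq =>
    have e : aeval y' (p + q) - aeval y (p + q) =
        aeval y' p - aeval y p + (aeval y' q - aeval y q) := by
      simp only [map_add]
      ring
    exact e ▸ hp.add hq
  | monomial j a ih =>
    have e : aeval y' (C a * X ^ (j + 1)) - aeval y (C a * X ^ (j + 1)) =
        (aeval y' (C a * X ^ j) - aeval y (C a * X ^ j)) * y' +
          aeval y (C a * X ^ j) * (y' - y) := by
      simp only [map_mul, map_pow, aeval_X, aeval_C]
      ring
    rw [e]
    exact ((ih.mul h').mono (by omega)).add (((lead_aeval0 h _).1.mul hd).mono (by omega))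

variable [CharZero k]

lemma cast_mul_ne (hn : n ≠ 0) (hb : b ≠ 0) : (n : k) * b ≠ 0 :=
  mul_ne_zero (Int.cast_ne_zero.2 hn) hb

/-- Comparison of orders in identity (1). -/
lemma order_rel (hx : Lead E a x) (hE : 0 < E) (ha : a ≠ 0) (hy : Lead n b y) (hn : 0 < n)
    (hb : b ≠ 0) (hf : f ≠ 0) (hg : g ≠ 0)
    (e1 : aeval x f * (euler k k) y ^ m = aeval y g * (euler k k) x ^ m) :
    E * (m - (f.rootMultiplicity 0 : ℕ)) = n * (m - (g.rootMultiplicity 0 : ℕ)) := by
  obtain ⟨c1, h1, H1⟩ := hx.aeval hE ha hf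
  obtain ⟨c2, h2, H2⟩ := hy.aeval hn hb hg
  have H3 := H1.mul (hy.euler.pow m)
  rw [e1] at H3
  have := H3.uniq (mul_ne_zero h1 (pow_ne_zero _ (cast_mul_ne hn.ne' hb)))
    (H2.mul (hx.euler.pow m)) (mul_ne_zero h2 (pow_ne_zero _ (cast_mul_ne hE.ne' ha)))
  linarith

/-- Identity (1) excludes a pole of the second coordinate over a finite point. -/
lemma no_pole (hx : Lead E a x) (hE : 0 < E) (ha : a ≠ 0) (hf : f ≠ 0) (hg : g ≠ 0)
    (hlt : f.rootMultiplicity 0 < m) (hd : g.natDegree ≤ m)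
    (e1 : aeval x f * (euler k k) y ^ m = aeval y g * (euler k k) x ^ m) : Ge 0 y := by
  by_cases h0 : y = 0
  · exact h0 ▸ Ge.zero 0
  obtain ⟨n, b, hb, hy⟩ := exists_lead h0
  refine hy.1.mono (not_lt.1 fun hn => ?_)
  obtain ⟨c1, h1, H1⟩ := hx.aeval hE ha hf
  have H3 := H1.mul (hy.euler.pow m)
  rw [e1] at H3
  have := H3.uniq (mul_ne_zero h1 (pow_ne_zero _ (cast_mul_ne hn.ne hb)))
    ((hy.aeval_neg hn g).mul (hx.euler.pow m))
    (mul_ne_zero (mul_ne_zero (leadingCoeff_ne_zero.2 hg) (pow_ne_zero _ hb))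
      (pow_ne_zero _ (cast_mul_ne hE.ne' ha)))
  have h4 : ((f.rootMultiplicity 0 : ℕ) : ℤ) < m := by exact_mod_cast hlt
  have h5 : ((g.natDegree : ℕ) : ℤ) ≤ m := by exact_mod_cast hd
  nlinarith

/-- Two solutions of (1) with the same leading term agree. -/
lemma sol_uniq (h : Lead n b y) (h' : Lead n b y') (hn : 0 < n) (hb : b ≠ 0) (hg : g ≠ 0)
    (hlt : g.rootMultiplicity 0 < m) (e : aeval y g * (euler k k) y' ^ m = aeval y' g * (euler k k) y ^ m) :
    y' = y := by
  by_contra hne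
  obtain ⟨r, c, hc, hd⟩ := exists_lead (sub_ne_zero.2 hne)
  have hr : n + 1 ≤ r := hd.le_of_ge hc ((h'.sub h).cast rfl (sub_self b)).ge_succ
  obtain ⟨q, hq, hq0⟩ := exists_X_pow_mul hg
  generalize g.rootMultiplicity 0 = μ at hq hlt
  subst hq
  have g1 : Ge 1 y := h.1.mono hn
  have g2 : Ge 1 y' := h'.1.mono hn
  have A1 := (lead_pow_sub h h' hd μ).mul (lead_aeval0 g2 q)
  have A2 : Ge (n * μ + r + 0 + 1) (y ^ (μ + 1) * (aeval y' q - aeval y q)) :=
    ((h.pow (μ + 1)).1.mul (ge_aeval_sub g1 g2 hd.1 q)).mono (by push_cast; linarith)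
  have A3 := (A1.add A2.lead0).mul (h.euler.pow (m + 1))
  have hd' : Lead r (r * c) ((euler k k) y' - (euler k k) y) := map_sub (euler k k) y' y ▸ hd.euler
  have A4 := ((h.pow (μ + 1)).mul (lead_aeval0 g1 q)).mul (lead_pow_sub h.euler h'.euler hd' m)
  have e' : (y * (y' ^ μ - y ^ μ) * aeval y' q + y ^ (μ + 1) * (aeval y' q - aeval y q)) *
      (euler k k) y ^ (m + 1) = y ^ (μ + 1) * aeval y q * ((euler k k) y * ((euler k k) y' ^ m - (euler k k) y ^ m)) := by
    simp only [map_mul, map_pow, aeval_X] at e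
    linear_combination (-y * (euler k k) y) * e
  rw [e'] at A3
  have A5 := (A3.cast (by push_cast; ring) rfl).eq A4
  have A6 : ((μ * n : ℤ) : k) = ((m * r : ℤ) : k) := by
    refine mul_left_cancel₀ (mul_ne_zero (mul_ne_zero (mul_ne_zero (pow_ne_zero (μ + 1) hb) hq0)
      hc) (pow_ne_zero m (cast_mul_ne hn.ne' hb))) ?_
    push_cast
    linear_combination A5
  have A7 : (μ * n : ℤ) = m * r := by exact_mod_cast A6
  have A8 : (μ : ℤ) < m := by exact_mod_cast hlt
  nlinarith

omit [CharZero k] in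
lemma rot_aeval (ζ : kˣ) (x : LaurentSeries k) (p : k[X]) :
    rot ζ (aeval x p) = aeval (rot ζ x) p := by
  induction p using Polynomial.induction_on with
  | C a =>
    simp only [aeval_C]
    exact rot_C ζ a
  | add p q hp hq => simp only [map_add, hp, hq]
  | monomial j a _ =>
    simp only [map_mul, map_pow, aeval_X, aeval_C]
    rw [show rot ζ (algebraMap k _ a) = algebraMap k _ a from rot_C ζ a]

/-- If `x` is a series in `u ^ d` and `d` divides the order of `y`, then `y` is one too. -/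
lemma mem_ram [IsAlgClosed k] (d : ℕ+) {x0 : LaurentSeries k} (hx : aeval (ram d x0) f ≠ 0)
    (hy : Lead n b y) (hn : 0 < n) (hb : b ≠ 0) (hg : g ≠ 0) (hlt : g.rootMultiplicity 0 < m)
    (hd : ((d : ℕ) : ℤ) ∣ n)
    (e1 : aeval (ram d x0) f * (euler k k) y ^ m = aeval y g * (euler k k) (ram d x0) ^ m) : ∃ y0, ram d y0 = y := by
  refine mem_range_of_rot_all d fun ζ hζ => ?_
  have e2 := congrArg (rot ζ) e1
  simp only [map_mul, map_pow, rot_aeval, ← euler_rot k, rot_ram d hζ] at e2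
  refine sol_uniq hy ((hy.rot ζ).cast rfl ?_) hn hb hg hlt (mul_left_cancel₀ hx ?_)
  · obtain ⟨i, rfl⟩ := hd
    rw [zpow_mul, zpow_natCast, hζ, one_zpow, Units.val_one, one_mul]
  · linear_combination aeval y g * e2 - aeval (rot ζ y) g * e1

end Ivrii.TA
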