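import Pool.Agent.P.MP_7a8567_an.TA.Ids

/-! The generating identity behind (1), (2), (3). -/

open Polynomial

noncomputable section

namespace Ivrii.TA

variable {k : Type*} [Field k] {A : Type*} [CommRing A] [Algebra k A]

/-- `F (t, X) ↦ F (t, x - y t ^ 2)`; the outer variable of `k[X][X]` is `t`. -/
def evT (x y : A) : k[X][X] →+* A[X] :=
  eval₂RingHom ((aeval (C x - C y * X ^ 2 : A[X]) : k[X] →ₐ[k] A[X]) : k[X] →+* A[X]) X

/-- `F (t, z - w t ^ 2) G (0, w) = F (0, z) G (p t, w - z (p t) ^ 2)`. -/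
def Rel (F G : k[X][X]) (z w p : A) : Prop :=
  evT z w F * C (aeval w (G.coeff 0)) = C (aeval z (F.coeff 0)) * (evT w z G).comp (C p * X)

/-- The coefficients of `t ^ 0`, `t ^ 2` and twice that of `t ^ 4`. -/
def tri (F : k[X][X]) : Tri k := ⟨F.coeff 0, F.coeff 2, 2 * F.coeff 4⟩

end Ivrii.TA
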